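import Pool.Agent.Lib_MP_2c424f_lc6a.Defs2

/-!
# LC6a A1: Cauchy-Schwarz inequality for two sheets

Classes of vertices: inside (`In`, not `Su`), surface (`Su`), outside (not `In`).  By `hno` there is no edge between inside and outside.
Write `f = (x, ξ, y)` (values inside, on the surface, outside; e.g. `Equiv.piEquivPiSubtypeProd` twice).
`PrG G f` iff `α x ξ ∧ β ξ y`, `α`: `f` is proper on the edges with both ends in `In`, `β`: on the edges with both ends not (`In` and not `Su`)
(edges between two surface points are in both).  `E f` depends on `(x, ξ)` only.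
`cG G E = ∑_ξ a ξ * b ξ`, `a ξ = #{x : α x ξ ∧ E (x, ξ)}`, `b ξ = #{y : β ξ y}`; Cauchy-Schwarz (`Finset.sum_mul_sq_le_sq_mul_sq`):
`(cG G E)² ≤ (∑_ξ (a ξ)²) (∑_ξ (b ξ)²)`.  A colouring `F` of `V × Bool` is `(x, ξ, y), (x', ξ', y')` (sheets `false`, `true`); it is proper for `TX` iff
`α x ξ ∧ α x' ξ ∧ β ξ' y ∧ β ξ' y'` (surface points of the sheet `false` see the inside neighbours on both sheets, those of the sheet `true` the outside
neighbours on both sheets).  So `cG TX E = ∑_{ξ, ξ'} #{x : α ∧ E} #{x' : α} (b ξ')² ≥ (∑ a²) (∑ b²)`.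
-/

set_option autoImplicit false

open Finset Filter

namespace Pool.Agent.LC

open Pool.Agent.LO Pool.Agent.LIN Pool.Agent.THR Pool.Agent.COR

section
variable {V : Type} {q : ℕ}

/-- proper on the edges inside -/
private def A1_PI (G : SimpleGraph V) (In : V → Prop) (f : V → Fin q) : Prop :=
  ∀ u v, In u → In v → G.Adj u v → f u ≠ f v

/-- proper on the edges outside and on the surface -/
private def A1_PO (G : SimpleGraph V) (In Su : V → Prop) (f : V → Fin q) : Prop :=
  ∀ u v, (In u → Su u) → (In v → Su v) → G.Adj u v → f u ≠ f v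

private theorem A1_pr (G : SimpleGraph V) (In Su : V → Prop) (hSI : ∀ x, Su x → In x)
    (hno : ∀ x y, G.Adj x y → ¬ Su x → ¬ Su y → (In x ↔ In y)) (f : V → Fin q) :
    PrG G f ↔ A1_PI G In f ∧ A1_PO G In Su f := by
  constructor
  · intro h
    exact ⟨fun u v _ _ huv => h u v huv, fun u v _ _ huv => h u v huv⟩
  · rintro ⟨h1, h2⟩ u v huv
    by_cases hu : In u
    · by_cases hv : In v
      · exact h1 u v hu hv huv
      · by_cases hsu : Su u
        · exact h2 u v (fun _ => hsu) (fun h => absurd h hv) huv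
        · exact absurd ((hno u v huv hsu fun h => hv (hSI v h)).1 hu) hv
    · by_cases hv : In v
      · by_cases hsv : Su v
        · exact h2 u v (fun h => absurd h hu) (fun _ => hsv) huv
        · exact absurd ((hno u v huv (fun h => hu (hSI u h)) hsv).2 hv) hu
      · exact h2 u v (fun h => absurd h hu) (fun h => absurd h hv) huv

open scoped Classical in
private theorem A1_TX (G : SimpleGraph V) (In Su : V → Prop) (hSI : ∀ x, Su x → In x)
    (hno : ∀ x y, G.Adj x y → ¬ Su x → ¬ Su y → (In x ↔ In y)) (F : V × Bool → Fin q)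
    (f₀ f₁ g₀ g₁ : V → Fin q) (h₀ : ∀ v, F (v, false) = f₀ v) (h₁ : ∀ v, F (v, true) = f₁ v)
    (hg₀ : ∀ v, g₀ v = if Su v then f₀ v else f₁ v)
    (hg₁ : ∀ v, g₁ v = if Su v then f₁ v else f₀ v) :
    PrG (TX G In Su) F ↔ (A1_PI G In f₀ ∧ A1_PI G In g₀) ∧
      (A1_PO G In Su g₁ ∧ A1_PO G In Su f₁) := by
  constructor
  · intro h
    have k : ∀ (u v : V) (s t : Bool), G.Adj u v → (((Su u ↔ Su v) ∧ s = t) ∨
        (Su u ∧ ¬ Su v ∧ (s = false ↔ In v)) ∨ (Su v ∧ ¬ Su u ∧ (t = false ↔ In u))) →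
        F (u, s) ≠ F (v, t) := fun u v s t huv hc => h (u, s) (v, t) ⟨huv, hc⟩
    refine ⟨⟨?_, ?_⟩, ⟨?_, ?_⟩⟩
    · intro u v hu hv huv
      rw [← h₀, ← h₀]
      apply k u v false false huv
      by_cases hsu : Su u <;> by_cases hsv : Su v
      · exact Or.inl ⟨by tauto, rfl⟩
      · exact Or.inr (Or.inl ⟨hsu, hsv, by tauto⟩)
      · exact Or.inr (Or.inr ⟨hsv, hsu, by tauto⟩)
      · exact Or.inl ⟨by tauto, rfl⟩
    · intro u v hu hv huv
      rw [hg₀, hg₀]
      by_cases hsu : Su u <;> by_cases hsv : Su v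
      · rw [if_pos hsu, if_pos hsv, ← h₀, ← h₀]
        exact k u v false false huv (Or.inl ⟨by tauto, rfl⟩)
      · rw [if_pos hsu, if_neg hsv, ← h₀, ← h₁]
        exact k u v false true huv (Or.inr (Or.inl ⟨hsu, hsv, by tauto⟩))
      · rw [if_neg hsu, if_pos hsv, ← h₀, ← h₁]
        exact k u v true false huv (Or.inr (Or.inr ⟨hsv, hsu, by tauto⟩))
      · rw [if_neg hsu, if_neg hsv, ← h₁, ← h₁]
        exact k u v true true huv (Or.inl ⟨by tauto, rfl⟩)
    · intro u v hu hv huv
      rw [hg₁, hg₁]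
      by_cases hsu : Su u <;> by_cases hsv : Su v
      · rw [if_pos hsu, if_pos hsv, ← h₁, ← h₁]
        exact k u v true true huv (Or.inl ⟨by tauto, rfl⟩)
      · rw [if_pos hsu, if_neg hsv, ← h₀, ← h₁]
        exact k u v true false huv (Or.inr (Or.inl ⟨hsu, hsv, by simp; tauto⟩))
      · rw [if_neg hsu, if_pos hsv, ← h₀, ← h₁]
        exact k u v false true huv (Or.inr (Or.inr ⟨hsv, hsu, by simp; tauto⟩))
      · rw [if_neg hsu, if_neg hsv, ← h₀, ← h₀]
        exact k u v false false huv (Or.inl ⟨by tauto, rfl⟩)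
    · intro u v hu hv huv
      rw [← h₁, ← h₁]
      apply k u v true true huv
      by_cases hsu : Su u <;> by_cases hsv : Su v
      · exact Or.inl ⟨by tauto, rfl⟩
      · exact Or.inr (Or.inl ⟨hsu, hsv, by simp; tauto⟩)
      · exact Or.inr (Or.inr ⟨hsv, hsu, by simp; tauto⟩)
      · exact Or.inl ⟨by tauto, rfl⟩
  · rintro ⟨⟨hI0, hI1⟩, ⟨hO0, hO1⟩⟩
    have key : ∀ (u v : V) (s t : Bool), G.Adj u v → Su u → ¬ Su v → (s = false ↔ In v) →
        F (u, s) ≠ F (v, t) := by
      intro u v s t huv hsu hsv hs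
      by_cases hv : In v
      · have hs0 : s = false := hs.2 hv
        subst hs0
        cases t
        · rw [h₀, h₀]
          exact hI0 u v (hSI u hsu) hv huv
        · have h := hI1 u v (hSI u hsu) hv huv
          rw [hg₀, hg₀, if_pos hsu, if_neg hsv] at h
          rw [h₀, h₁]
          exact h
      · have hs1 : s = true := by
          cases s
          · exact absurd (hs.1 rfl) hv
          · rfl
        subst hs1
        cases t
        · have h := hO0 u v (fun _ => hsu) (fun h => absurd h hv) huv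
          rw [hg₁, hg₁, if_pos hsu, if_neg hsv] at h
          rw [h₀, h₁]
          exact h
        · rw [h₁, h₁]
          exact hO1 u v (fun _ => hsu) (fun h => absurd h hv) huv
    rintro ⟨u, s⟩ ⟨v, t⟩ ⟨huv, hc⟩
    rcases hc with ⟨hc, hst⟩ | ⟨hsu, hsv, hs⟩ | ⟨hsv, hsu, ht⟩
    · have hst' : s = t := hst
      subst hst'
      have huv' : G.Adj u v := huv
      have hc' : Su u ↔ Su v := hc
      by_cases hsu : Su u
      · have hsv : Su v := hc'.1 hsu
        cases s
        · rw [h₀, h₀]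
          exact hI0 u v (hSI u hsu) (hSI v hsv) huv'
        · rw [h₁, h₁]
          exact hO1 u v (fun _ => hsu) (fun _ => hsv) huv'
      · have hsv : ¬ Su v := fun h => hsu (hc'.2 h)
        have hio := hno u v huv' hsu hsv
        by_cases hu : In u
        · have hv := hio.1 hu
          cases s
          · rw [h₀, h₀]
            exact hI0 u v hu hv huv'
          · have h := hI1 u v hu hv huv'
            rw [hg₀, hg₀, if_neg hsu, if_neg hsv] at h
            rw [h₁, h₁]
            exact h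
        · have hv : ¬ In v := fun h => hu (hio.2 h)
          cases s
          · have h := hO0 u v (fun h => absurd h hu) (fun h => absurd h hv) huv'
            rw [hg₁, hg₁, if_neg hsu, if_neg hsv] at h
            rw [h₀, h₀]
            exact h
          · rw [h₁, h₁]
            exact hO1 u v (fun h => absurd h hu) (fun h => absurd h hv) huv'
    · exact key u v s t huv hsu hsv hs
    · exact (key v u t s huv.symm hsv hsu ht).symm

open scoped Classical in
/-- a function with given values inside, on the surface, outside -/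
private noncomputable def A1_g (In Su : V → Prop) (x : {v // In v ∧ ¬ Su v} → Fin q)
    (ξ : {v // Su v} → Fin q) (y : {v // ¬ In v} → Fin q) : V → Fin q := fun v =>
  if hS : Su v then ξ ⟨v, hS⟩ else if hI : In v then x ⟨v, hI, hS⟩ else y ⟨v, hI⟩

private theorem A1_g_S (In Su : V → Prop) (x : {v // In v ∧ ¬ Su v} → Fin q)
    (ξ : {v // Su v} → Fin q) (y : {v // ¬ In v} → Fin q) {v : V} (hS : Su v) :
    A1_g In Su x ξ y v = ξ ⟨v, hS⟩ := by
  unfold A1_g
  rw [dif_pos hS]

private theorem A1_g_I (In Su : V → Prop) (x : {v // In v ∧ ¬ Su v} → Fin q)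
    (ξ : {v // Su v} → Fin q) (y : {v // ¬ In v} → Fin q) {v : V} (hS : ¬ Su v) (hI : In v) :
    A1_g In Su x ξ y v = x ⟨v, hI, hS⟩ := by
  unfold A1_g
  rw [dif_neg hS, dif_pos hI]

private theorem A1_g_O (In Su : V → Prop) (x : {v // In v ∧ ¬ Su v} → Fin q)
    (ξ : {v // Su v} → Fin q) (y : {v // ¬ In v} → Fin q) {v : V} (hS : ¬ Su v) (hI : ¬ In v) :
    A1_g In Su x ξ y v = y ⟨v, hI⟩ := by
  unfold A1_g
  rw [dif_neg hS, dif_neg hI]

/-- decomposition of a function -/
private noncomputable def A1_e (In Su : V → Prop) (hSI : ∀ x, Su x → In x) :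
    (({v // In v ∧ ¬ Su v} → Fin q) × ({v // Su v} → Fin q) × ({v // ¬ In v} → Fin q)) ≃
      (V → Fin q) where
  toFun p := A1_g In Su p.1 p.2.1 p.2.2
  invFun f := (fun v => f v.1, fun v => f v.1, fun v => f v.1)
  left_inv p := by
    obtain ⟨x, ξ, y⟩ := p
    refine Prod.ext ?_ (Prod.ext ?_ ?_)
    · funext v
      exact A1_g_I In Su x ξ y v.2.2 v.2.1
    · funext v
      exact A1_g_S In Su x ξ y v.2
    · funext v
      exact A1_g_O In Su x ξ y (fun h => v.2 (hSI _ h)) v.2
  right_inv f := by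
    funext v
    by_cases hS : Su v
    · exact A1_g_S In Su _ _ _ hS
    · by_cases hI : In v
      · exact A1_g_I In Su _ _ _ hS hI
      · exact A1_g_O In Su _ _ _ hS hI

end

open scoped Classical in
private noncomputable def A1_i (P : Prop) : ℝ := if P then 1 else 0

private theorem A1_i_and (P Q : Prop) : A1_i (P ∧ Q) = A1_i P * A1_i Q := by
  unfold A1_i
  by_cases hP : P <;> by_cases hQ : Q <;> simp [hP, hQ]

private theorem A1_i_congr {P Q : Prop} (h : P ↔ Q) : A1_i P = A1_i Q := by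
  rw [propext h]

private theorem A1_i_nonneg (P : Prop) : 0 ≤ A1_i P := by
  unfold A1_i
  split_ifs <;> norm_num

private theorem A1_i_mono {P Q : Prop} (h : P → Q) : A1_i P ≤ A1_i Q := by
  unfold A1_i
  by_cases hP : P
  · rw [if_pos hP, if_pos (h hP)]
  · rw [if_neg hP]
    split_ifs <;> norm_num

private theorem A1_cG {W : Type} [Fintype W] [DecidableEq W] {q : ℕ} (G : SimpleGraph W)
    (P : (W → Fin q) → Prop) : cG G P = ∑ f : W → Fin q, A1_i (PrG G f ∧ P f) := by
  classical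
  unfold cG A1_i
  rw [Finset.card_filter, Nat.cast_sum]
  refine Finset.sum_congr rfl fun f _ => ?_
  by_cases h : PrG G f ∧ P f
  · rw [if_pos h, if_pos h, Nat.cast_one]
  · rw [if_neg h, if_neg h, Nat.cast_zero]

/-- reordering of the six components -/
private def A1_r (X Ξ Y : Type) : ((Ξ × X × X) × (Ξ × Y × Y)) ≃ ((X × Ξ × Y) × (X × Ξ × Y)) where
  toFun p := ((p.1.2.1, p.1.1, p.2.2.1), (p.1.2.2, p.2.1, p.2.2.2))
  invFun p := ((p.1.2.1, p.1.1, p.2.1), (p.2.2.1, p.1.2.2, p.2.2.2))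
  left_inv _ := rfl
  right_inv _ := rfl

/-- the functions on two sheets -/
private def A1_b (V : Type) (q : ℕ) : ((V → Fin q) × (V → Fin q)) ≃ (V × Bool → Fin q) where
  toFun p := fun v => if v.2 then p.2 v.1 else p.1 v.1
  invFun F := (fun v => F (v, false), fun v => F (v, true))
  left_inv p := rfl
  right_inv F := by
    funext ⟨v, b⟩
    cases b <;> rfl

theorem cs_sheets {V : Type} [Fintype V] [DecidableEq V] {q : ℕ} (G : SimpleGraph V) (In Su : V → Prop)
    (hSI : ∀ x, Su x → In x) (hno : ∀ x y, G.Adj x y → ¬ Su x → ¬ Su y → (In x ↔ In y))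
    (E : (V → Fin q) → Prop) (hE : ∀ f f' : V → Fin q, (∀ x, In x → f x = f' x) → E f → E f') :
    cG G E ^ 2 ≤ cG (TX G In Su) (fun F : V × Bool → Fin q => E fun x => F (x, false)) := by
  classical
  set X := {v // In v ∧ ¬ Su v} → Fin q with hX
  set Ξ := {v // Su v} → Fin q with hΞ
  set Y := {v // ¬ In v} → Fin q with hY
  set g : X → Ξ → Y → V → Fin q := A1_g In Su with hg
  -- values inside do not depend on `y`, values outside not on `x`
  have gI : ∀ (x : X) (ξ : Ξ) (y y' : Y) (v : V), In v → g x ξ y v = g x ξ y' v := by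
    intro x ξ y y' v hv
    by_cases hS : Su v
    · rw [hg, A1_g_S In Su _ _ _ hS, A1_g_S In Su _ _ _ hS]
    · rw [hg, A1_g_I In Su _ _ _ hS hv, A1_g_I In Su _ _ _ hS hv]
  have gO : ∀ (x x' : X) (ξ : Ξ) (y : Y) (v : V), (In v → Su v) → g x ξ y v = g x' ξ y v := by
    intro x x' ξ y v hv
    by_cases hS : Su v
    · rw [hg, A1_g_S In Su _ _ _ hS, A1_g_S In Su _ _ _ hS]
    · have hI : ¬ In v := fun h => hS (hv h)
      rw [hg, A1_g_O In Su _ _ _ hS hI, A1_g_O In Su _ _ _ hS hI]
  set α : X → Ξ → Prop := fun x ξ => ∃ y : Y, A1_PI G In (g x ξ y) with hα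
  set β : Ξ → Y → Prop := fun ξ y => ∃ x : X, A1_PO G In Su (g x ξ y) with hβ
  set ε : X → Ξ → Prop := fun x ξ => ∃ y : Y, E (g x ξ y) with hε
  have eα : ∀ x ξ (y : Y), A1_PI G In (g x ξ y) ↔ α x ξ := by
    intro x ξ y
    constructor
    · intro h
      exact ⟨y, h⟩
    · rintro ⟨y', h⟩ u v hu hv huv
      rw [gI x ξ y y' u hu, gI x ξ y y' v hv]
      exact h u v hu hv huv
  have eβ : ∀ (x : X) ξ y, A1_PO G In Su (g x ξ y) ↔ β ξ y := by
    intro x ξ y
    constructor
    · intro h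
      exact ⟨x, h⟩
    · rintro ⟨x', h⟩ u v hu hv huv
      rw [gO x x' ξ y u hu, gO x x' ξ y v hv]
      exact h u v hu hv huv
  have eε : ∀ x ξ (y : Y), E (g x ξ y) ↔ ε x ξ := by
    intro x ξ y
    constructor
    · intro h
      exact ⟨y, h⟩
    · rintro ⟨y', h⟩
      exact hE _ _ (fun v hv => gI x ξ y' y v hv) h
  -- the sums
  set a : Ξ → ℝ := fun ξ => ∑ x : X, A1_i (α x ξ) * A1_i (ε x ξ) with ha
  set a₀ : Ξ → ℝ := fun ξ => ∑ x : X, A1_i (α x ξ) with ha₀
  set b : Ξ → ℝ := fun ξ => ∑ y : Y, A1_i (β ξ y) with hb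
  have h1 : cG G E = ∑ ξ : Ξ, a ξ * b ξ := by
    rw [A1_cG, ← Equiv.sum_comp (A1_e In Su hSI)]
    rw [Fintype.sum_prod_type]
    have h2 : ∀ (x : X), ∑ p : Ξ × Y, A1_i (PrG G (A1_e In Su hSI (x, p)) ∧ E (A1_e In Su hSI (x, p))) =
        ∑ ξ : Ξ, ∑ y : Y, (A1_i (α x ξ) * A1_i (ε x ξ)) * A1_i (β ξ y) := by
      intro x
      rw [Fintype.sum_prod_type]
      refine Finset.sum_congr rfl fun ξ _ => Finset.sum_congr rfl fun y _ => ?_
      have h3 : A1_e In Su hSI (x, ξ, y) = g x ξ y := rfl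
      rw [h3, A1_i_and, A1_i_congr (A1_pr G In Su hSI hno _), A1_i_and,
        A1_i_congr (eα x ξ y), A1_i_congr (eβ x ξ y), A1_i_congr (eε x ξ y)]
      ring
    rw [Finset.sum_congr rfl fun x _ => h2 x, Finset.sum_comm]
    refine Finset.sum_congr rfl fun ξ _ => ?_
    rw [ha, hb]
    simp only
    rw [Finset.sum_mul_sum]
  have h4 : cG (TX G In Su) (fun F : V × Bool → Fin q => E fun x => F (x, false)) =
      (∑ ξ : Ξ, a ξ * a₀ ξ) * ∑ ξ : Ξ, b ξ ^ 2 := by
    rw [A1_cG, ← Equiv.sum_comp (A1_b V q),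
      ← Equiv.sum_comp (Equiv.prodCongr (A1_e In Su hSI) (A1_e In Su hSI)),
      ← Equiv.sum_comp (A1_r X Ξ Y)]
    have h5 : ∀ p : (Ξ × X × X) × (Ξ × Y × Y),
        A1_i (PrG (TX G In Su) (A1_b V q (Equiv.prodCongr (A1_e In Su hSI) (A1_e In Su hSI)
          (A1_r X Ξ Y p))) ∧ E fun x => A1_b V q (Equiv.prodCongr (A1_e In Su hSI)
          (A1_e In Su hSI) (A1_r X Ξ Y p)) (x, false)) =
        ((A1_i (α p.1.2.1 p.1.1) * A1_i (ε p.1.2.1 p.1.1)) * A1_i (α p.1.2.2 p.1.1)) *
          (A1_i (β p.2.1 p.2.2.1) * A1_i (β p.2.1 p.2.2.2)) := by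
      rintro ⟨⟨ξ, x, x'⟩, ⟨ξ', y, y'⟩⟩
      have h6 := A1_TX G In Su hSI hno (A1_b V q (g x ξ y, g x' ξ' y')) (g x ξ y) (g x' ξ' y')
        (g x' ξ y') (g x ξ' y) (fun v => rfl) (fun v => rfl)
        (fun v => by
          by_cases hS : Su v
          · rw [if_pos hS, hg, A1_g_S In Su _ _ _ hS, A1_g_S In Su _ _ _ hS]
          · rw [if_neg hS]
            by_cases hI : In v
            · rw [hg, A1_g_I In Su _ _ _ hS hI, A1_g_I In Su _ _ _ hS hI]
            · rw [hg, A1_g_O In Su _ _ _ hS hI, A1_g_O In Su _ _ _ hS hI])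
        (fun v => by
          by_cases hS : Su v
          · rw [if_pos hS, hg, A1_g_S In Su _ _ _ hS, A1_g_S In Su _ _ _ hS]
          · rw [if_neg hS]
            by_cases hI : In v
            · rw [hg, A1_g_I In Su _ _ _ hS hI, A1_g_I In Su _ _ _ hS hI]
            · rw [hg, A1_g_O In Su _ _ _ hS hI, A1_g_O In Su _ _ _ hS hI])
      have h7 : A1_b V q (Equiv.prodCongr (A1_e In Su hSI) (A1_e In Su hSI)
          (A1_r X Ξ Y ((ξ, x, x'), (ξ', y, y')))) = A1_b V q (g x ξ y, g x' ξ' y') := rfl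
      rw [h7]
      have h8 : (fun v => A1_b V q (g x ξ y, g x' ξ' y') (v, false)) = g x ξ y := rfl
      rw [h8, A1_i_and, A1_i_congr h6, A1_i_and, A1_i_and, A1_i_and, A1_i_congr (eα x ξ y),
        A1_i_congr (eα x' ξ y'), A1_i_congr (eβ x ξ' y), A1_i_congr (eβ x' ξ' y'),
        A1_i_congr (eε x ξ y)]
      ring
    rw [Finset.sum_congr rfl fun p _ => h5 p, Fintype.sum_prod_type]
    dsimp only
    rw [← Finset.sum_mul_sum]
    congr 1
    · rw [Fintype.sum_prod_type]
      refine Finset.sum_congr rfl fun ξ _ => ?_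
      rw [ha, ha₀, Fintype.sum_prod_type]
      simp only
      rw [Finset.sum_mul_sum]
    · rw [Fintype.sum_prod_type]
      refine Finset.sum_congr rfl fun ξ _ => ?_
      rw [hb, Fintype.sum_prod_type, sq]
      simp only
      rw [Finset.sum_mul_sum]
  rw [h1, h4]
  refine (Finset.sum_mul_sq_le_sq_mul_sq univ a b).trans ?_
  refine mul_le_mul_of_nonneg_right ?_ (Finset.sum_nonneg fun ξ _ => sq_nonneg _)
  refine Finset.sum_le_sum fun ξ _ => ?_
  rw [sq]
  have ha1 : 0 ≤ a ξ := Finset.sum_nonneg fun x _ => mul_nonneg (A1_i_nonneg _) (A1_i_nonneg _)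
  refine mul_le_mul_of_nonneg_left ?_ ha1
  refine Finset.sum_le_sum fun x _ => ?_
  rw [← A1_i_and]
  exact A1_i_mono fun h => h.1

end Pool.Agent.LC
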