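import Pool.Agent.Lib_MP_2c424f_lc6a.Defs2

/-!
# LC6a A2: glued sheets and disjoint copies

* `cG_D2s`: a colouring `F` of `D2V W gl` is the pair `f x = F (x, false)`, `g x = F (x, true)` if not `gl x`, `g x = F (x, false)` if `gl x`; `F` is proper for
  `D2s B gl` iff `f`, `g` are proper for `B` (compare `Lib_MP_2c424f_lc6.C05`, `cG_D2`); the inverse of the bijection: `F (x, false) = f x`, `F (x, true) = g x`.
* `cG_TC`: `F = (F (·, false), F (·, true))`.
-/

set_option autoImplicit false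

open Finset Filter

namespace Pool.Agent.LC

open Pool.Agent.LO Pool.Agent.LIN Pool.Agent.THR Pool.Agent.COR

open scoped Classical in
/-- the colouring of the sheet `true` -/
private noncomputable def A2_g {W : Type} {q : ℕ} (gl : W → Prop) (F : D2V W gl → Fin q) (x : W) : Fin q :=
  if h : gl x then F ⟨(x, false), fun h => Bool.noConfusion h.1⟩ else F ⟨(x, true), fun h' => h h'.2⟩

private def A2_F {W : Type} {q : ℕ} (gl : W → Prop) (p : (W → Fin q) × (W → Fin q)) (z : D2V W gl) : Fin q :=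
  if z.1.2 then p.2 z.1.1 else p.1 z.1.1

theorem cG_D2s {W : Type} [Fintype W] [DecidableEq W] {q : ℕ} (B : SimpleGraph W) (gl : W → Prop)
    [Fintype (D2V W gl)] [DecidableEq (D2V W gl)] (P : (W → Fin q) → Prop) :
    cG (D2s B gl) (fun F : D2V W gl → Fin q => P fun x => F ⟨(x, false), fun h => Bool.noConfusion h.1⟩) = N2 B gl P := by
  classical
  unfold cG N2
  congr 1
  have hgt : ∀ (F : D2V W gl → Fin q) (x : W) (h : ¬ gl x), A2_g gl F x = F ⟨(x, true), fun h' => h h'.2⟩ := by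
    intro F x h
    unfold A2_g
    rw [dif_neg h]
  have hgf : ∀ (F : D2V W gl → Fin q) (x : W), gl x → A2_g gl F x = F ⟨(x, false), fun h => Bool.noConfusion h.1⟩ := by
    intro F x h
    unfold A2_g
    rw [dif_pos h]
  have hF0 : ∀ (p : (W → Fin q) × (W → Fin q)) (x : W) (h), A2_F gl p ⟨(x, false), h⟩ = p.1 x := fun p x h => rfl
  have hF1 : ∀ (p : (W → Fin q) × (W → Fin q)) (x : W) (h), A2_F gl p ⟨(x, true), h⟩ = p.2 x := fun p x h => rfl
  refine Finset.card_nbij' (fun F => (fun x => F ⟨(x, false), fun h => Bool.noConfusion h.1⟩, A2_g gl F)) (A2_F gl) ?_ ?_ ?_ ?_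
  · intro F hF
    obtain ⟨-, hF, hP⟩ := Finset.mem_filter.1 (Finset.mem_coe.1 hF)
    refine Finset.mem_coe.2 (Finset.mem_filter.2 ⟨mem_univ _, ?_, ?_, ?_, hP⟩)
    · intro x y hxy
      exact hF ⟨(x, false), _⟩ ⟨(y, false), _⟩ ⟨hxy, fun h => Bool.noConfusion h.1, fun h => Bool.noConfusion h.1, Or.inl rfl⟩
    · intro x y hxy
      show A2_g gl F x ≠ A2_g gl F y
      by_cases hx : gl x <;> by_cases hy : gl y
      · rw [hgf F x hx, hgf F y hy]
        exact hF _ _ ⟨hxy, fun h => Bool.noConfusion h.1, fun h => Bool.noConfusion h.1, Or.inl rfl⟩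
      · rw [hgf F x hx, hgt F y hy]
        exact hF _ _ ⟨hxy, fun h => Bool.noConfusion h.1, fun h => hy h.2, Or.inr (Or.inl hx)⟩
      · rw [hgt F x hx, hgf F y hy]
        exact hF _ _ ⟨hxy, fun h => hx h.2, fun h => Bool.noConfusion h.1, Or.inr (Or.inr hy)⟩
      · rw [hgt F x hx, hgt F y hy]
        exact hF _ _ ⟨hxy, fun h => hx h.2, fun h => hy h.2, Or.inl rfl⟩
    · intro x hx
      exact (hgf F x hx).symm
  · rintro ⟨f, g⟩ hp
    obtain ⟨-, hf, hg, hfg', hP⟩ := Finset.mem_filter.1 (Finset.mem_coe.1 hp)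
    have hfg : ∀ x, gl x → f x = g x := hfg'
    refine Finset.mem_coe.2 (Finset.mem_filter.2 ⟨mem_univ _, ?_, hP⟩)
    rintro ⟨⟨x, b⟩, hx⟩ ⟨⟨y, c⟩, hy⟩ ⟨hadj, h1, h2, h3⟩
    have hadj' : B.Adj x y := hadj
    cases b <;> cases c
    · exact hf x y hadj'
    · have hxy : gl x := by
        rcases h3 with h | h | h
        · exact Bool.noConfusion h
        · exact h
        · exact absurd ⟨rfl, h⟩ h2
      show f x ≠ g y
      rw [hfg x hxy]
      exact hg x y hadj'
    · have hxy : gl y := by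
        rcases h3 with h | h | h
        · exact Bool.noConfusion h
        · exact absurd ⟨rfl, h⟩ h1
        · exact h
      show g x ≠ f y
      rw [hfg y hxy]
      exact hg x y hadj'
    · exact hg x y hadj'
  · intro F _
    funext z
    obtain ⟨⟨x, b⟩, hz⟩ := z
    cases b
    · rfl
    · show A2_g gl F x = F ⟨(x, true), hz⟩
      exact hgt F x (fun h => hz ⟨rfl, h⟩)
  · rintro ⟨f, g⟩ hp
    obtain ⟨-, hf, hg, hfg, hP⟩ := Finset.mem_filter.1 (Finset.mem_coe.1 hp)
    refine Prod.ext rfl ?_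
    funext x
    show A2_g gl (A2_F gl (f, g)) x = g x
    by_cases hx : gl x
    · rw [hgf _ x hx, hF0]
      exact hfg x hx
    · rw [hgt _ x hx, hF1]

theorem cG_TC {V : Type} [Fintype V] [DecidableEq V] {q : ℕ} (G : SimpleGraph V) :
    cG (TC G) (fun _ : V × Bool → Fin q => True) = cG G (fun _ : V → Fin q => True) ^ 2 := by
  classical
  unfold cG
  rw [sq, ← Nat.cast_mul, ← Finset.card_product]
  congr 1
  refine Finset.card_nbij' (fun F => (fun x => F (x, false), fun x => F (x, true)))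
    (fun p z => if z.2 then p.2 z.1 else p.1 z.1) ?_ ?_ ?_ ?_
  · intro F hF
    simp only [Finset.mem_coe, Finset.mem_filter] at hF
    simp only [Finset.mem_coe, Finset.mem_product, Finset.mem_filter]
    obtain ⟨-, hF, -⟩ := hF
    exact ⟨⟨mem_univ _, fun x y hxy => hF (x, false) (y, false) ⟨hxy, rfl⟩, trivial⟩,
      ⟨mem_univ _, fun x y hxy => hF (x, true) (y, true) ⟨hxy, rfl⟩, trivial⟩⟩
  · rintro ⟨f, g⟩ hp
    simp only [Finset.mem_coe, Finset.mem_product, Finset.mem_filter] at hp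
    simp only [Finset.mem_coe, Finset.mem_filter]
    obtain ⟨⟨-, hf, -⟩, ⟨-, hg, -⟩⟩ := hp
    refine ⟨mem_univ _, ?_, trivial⟩
    rintro ⟨x, b⟩ ⟨y, c⟩ ⟨hadj, h3⟩
    have hadj' : G.Adj x y := hadj
    have h4 : b = c := h3
    subst h4
    cases b
    · exact hf x y hadj'
    · exact hg x y hadj'
  · intro F _
    funext z
    obtain ⟨x, b⟩ := z
    cases b <;> rfl
  · rintro ⟨f, g⟩ _
    rfl

end Pool.Agent.LC
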