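import Pool.Agent.Lib_MP_2c424f_lc6a.Defs2
import Pool.Agent.Lib_MP_2c424f_cor.K03

/-!
# LC6a A3: removing the edges at few sites

* `rmv_le`: fewer edges, more proper colourings.
* `rmv_add`: `COR.add_edges` (K03) with `G' = TC G`, the graph `rmv (TC G) R` and `E = {(p, p') : R p.1, (TC G).Adj p p'}`; `|E| ≤ 2 |R| Δ` (for every `p` with `R p.1`, at
  most `Δ` neighbours); `(1 - 1/q)^n` is decreasing in `n`.
-/

set_option autoImplicit false

open Finset Filter

namespace Pool.Agent.LC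

open Pool.Agent.LO Pool.Agent.LIN Pool.Agent.THR Pool.Agent.COR

private theorem A3_mono {W : Type} [Fintype W] [DecidableEq W] {q : ℕ} {G H : SimpleGraph W}
    {P Q : (W → Fin q) → Prop} (h : ∀ f : W → Fin q, PrG G f → P f → PrG H f ∧ Q f) :
    cG G P ≤ cG H Q := by
  classical
  unfold cG
  have h1 : (univ.filter fun f : W → Fin q => PrG G f ∧ P f) ⊆
      (univ.filter fun f : W → Fin q => PrG H f ∧ Q f) := by
    intro f hf
    rw [mem_filter] at hf ⊢
    exact ⟨mem_univ _, h f hf.2.1 hf.2.2⟩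
  exact_mod_cast card_le_card h1

theorem rmv_le {V : Type} [Fintype V] [DecidableEq V] {q : ℕ} (X : SimpleGraph (V × Bool)) (R : V → Prop) :
    cG X (fun _ : V × Bool → Fin q => True) ≤ cG (rmv X R) (fun _ : V × Bool → Fin q => True) := by
  exact A3_mono fun f hf _ => ⟨fun x y hxy => hf x y hxy.1, trivial⟩

open scoped Classical in
theorem rmv_add {V : Type} [Fintype V] [DecidableEq V] {q : ℕ} (hq : 1 ≤ q) (G : SimpleGraph V) (ev : V → Prop)
    (hG : Par G ev) (Δ : ℕ) (hΔ : ∀ v, (nb G v).card ≤ Δ) (R : V → Prop) :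
    (1 - 1 / (q : ℝ)) ^ (2 * Δ * (univ.filter fun v => R v).card) * cG (rmv (TC G) R) (fun _ : V × Bool → Fin q => True) ≤
      cG (TC G) (fun _ : V × Bool → Fin q => True) := by
  obtain ⟨P, hP⟩ : ∃ P : Finset (V × Bool), P = (univ.filter fun v => R v) ×ˢ (univ : Finset Bool) :=
    ⟨_, rfl⟩
  obtain ⟨E, hE⟩ : ∃ E : Finset ((V × Bool) × (V × Bool)),
      E = P.biUnion fun p => (nb G p.1).image fun v => (p, (v, p.2)) := ⟨_, rfl⟩
  have hmem : ∀ p p' : V × Bool, R p.1 → (TC G).Adj p p' → (p, p') ∈ E := by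
    intro p p' hR hadj
    rw [hE, mem_biUnion]
    refine ⟨p, ?_, ?_⟩
    · rw [hP, mem_product, mem_filter]
      exact ⟨⟨mem_univ _, hR⟩, mem_univ _⟩
    · rw [mem_image]
      refine ⟨p'.1, ?_, ?_⟩
      · unfold nb
        rw [mem_filter]
        exact ⟨mem_univ _, hadj.1⟩
      · exact Prod.ext rfl (Prod.ext rfl hadj.2)
  have hcard : E.card ≤ 2 * Δ * (univ.filter fun v => R v).card := by
    rw [hE]
    refine card_biUnion_le.trans ?_
    calc ∑ p ∈ P, ((nb G p.1).image fun v => (p, (v, p.2))).card ≤ ∑ _p ∈ P, Δ :=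
          sum_le_sum fun p _ => card_image_le.trans (hΔ p.1)
      _ = P.card * Δ := by rw [sum_const, smul_eq_mul]
      _ = 2 * Δ * (univ.filter fun v => R v).card := by
          rw [hP, card_product, card_univ, Fintype.card_bool]
          ring
  have hpar : Par (TC G) (fun p => ev p.1) := fun x y hxy => hG x.1 y.1 hxy.1
  have hle : rmv (TC G) R ≤ TC G := fun x y hxy => hxy.1
  have h1 := add_edges (q := q) hpar hle hq E (by
    intro x y hxy
    by_cases hx : R x.1
    · exact Or.inr (Or.inl (hmem x y hx hxy))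
    · by_cases hy : R y.1
      · exact Or.inr (Or.inr (hmem y x hy hxy.symm))
      · exact Or.inl ⟨hxy, hx, hy⟩)
  have hq0 : (1 : ℝ) ≤ q := by exact_mod_cast hq
  have hqp : (0 : ℝ) < q := by linarith
  have h2 : 1 / (q : ℝ) ≤ 1 := by
    rw [div_le_one hqp]
    exact hq0
  have h3 : 0 ≤ 1 / (q : ℝ) := by positivity
  have h4 : (1 - 1 / (q : ℝ)) ^ (2 * Δ * (univ.filter fun v => R v).card) ≤
      (1 - 1 / (q : ℝ)) ^ E.card :=
    pow_le_pow_of_le_one (by linarith) (by linarith) hcard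
  have h5 : 0 ≤ cG (rmv (TC G) R) (fun _ : V × Bool → Fin q => True) := by
    unfold cG
    positivity
  exact (mul_le_mul_of_nonneg_right h4 h5).trans h1

end Pool.Agent.LC
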