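import Pool.Agent.Lib_MP_2c424f_lc6a.Defs2
import Pool.Agent.Lib_MP_2c424f_lc5.V13

/-!
# LC6a A4: parity and degrees

* `bG_par`: one coordinate changes by `1`.
* `XX`, `XC`: the first components of neighbours are neighbours in `bG d N`; so at most `2 * 2 d` neighbours (`card_nb_box` of `lc5.V13`).
-/

set_option autoImplicit false

open Finset Filter

namespace Pool.Agent.LC

open Pool.Agent.LO Pool.Agent.LIN Pool.Agent.THR Pool.Agent.COR

private theorem A4_sum {d N : ℕ} (x y : BxV d N) (i : Fin d) (h : ∀ j, j ≠ i → x j = y j) :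
    (∑ j, (x j).val) + (y i).val = (∑ j, (y j).val) + (x i).val := by
  have h1 : ∑ j, (x j).val = (x i).val + ∑ j ∈ univ.erase i, (x j).val :=
    (add_sum_erase univ (fun j => (x j).val) (mem_univ i)).symm
  have h2 : ∑ j, (y j).val = (y i).val + ∑ j ∈ univ.erase i, (y j).val :=
    (add_sum_erase univ (fun j => (y j).val) (mem_univ i)).symm
  have h3 : ∑ j ∈ univ.erase i, (x j).val = ∑ j ∈ univ.erase i, (y j).val := by
    refine sum_congr rfl fun j hj => ?_
    rw [h j (ne_of_mem_erase hj)]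
  rw [h1, h2, h3]
  omega

theorem bG_par (d N : ℕ) : Par (bG d N) (bev : BxV d N → Prop) := by
  rintro x y ⟨i, h, h'⟩
  have hs := A4_sum x y i h
  unfold bev
  rw [Nat.even_iff, Nat.even_iff]
  rcases h' with h' | h' <;> omega

private theorem A4_deg {d N : ℕ} (X : SimpleGraph (BxV d N × Bool))
    (hX : ∀ p p', X.Adj p p' → (bG d N).Adj p.1 p'.1) (v : BxV d N × Bool) : (nb X v).card ≤ 4 * d := by
  classical
  have hsub : nb X v ⊆ nb (bG d N) v.1 ×ˢ (univ : Finset Bool) := by
    intro p hp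
    simp only [nb, mem_filter, mem_univ, true_and, mem_product, and_true] at hp ⊢
    exact hX v p hp
  have h1 := card_nb_box (d := d) (l := N) v.1
  calc (nb X v).card ≤ _ := card_le_card hsub
    _ = (nb (bG d N) v.1).card * 2 := by rw [card_product, card_univ, Fintype.card_bool]
    _ ≤ 4 * d := by omega

variable {d N h : ℕ} {ι : Type}

private theorem A4_XX (D : Bxs d N h ι) (p p' : BxV d N × Bool) (hp : D.XX.Adj p p') : (bG d N).Adj p.1 p'.1 :=
  hp.1.1

private theorem A4_XC (D : Bxs d N h ι) (p p' : BxV d N × Bool) (hp : D.XC.Adj p p') : (bG d N).Adj p.1 p'.1 :=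
  hp.1.1

theorem XX_par (D : Bxs d N h ι) : Par D.XX (fun v => bev v.1) := by
  intro p p' hp
  exact bG_par d N p.1 p'.1 (A4_XX D p p' hp)

theorem XC_par (D : Bxs d N h ι) : Par D.XC (fun v => bev v.1) := by
  intro p p' hp
  exact bG_par d N p.1 p'.1 (A4_XC D p p' hp)

theorem XX_deg (D : Bxs d N h ι) (v : BxV d N × Bool) : (nb D.XX v).card ≤ 4 * d :=
  A4_deg D.XX (A4_XX D) v

theorem XC_deg (D : Bxs d N h ι) (v : BxV d N × Bool) : (nb D.XC v).card ≤ 4 * d :=
  A4_deg D.XC (A4_XC D) v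

end Pool.Agent.LC
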