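import Pool.Agent.Lib_MP_2c424f_lc6a.Defs2

/-!
# LC6a B1: the slabs

All points of a slab of the box `k` have all coordinates in `[a k - h, a k + m k + h]`.
* `slb_in`, `slb_su`: let `x` be in the slab `(k, σ)`.  `In x`: if `x` is in the box `k'` and `k' ≠ k`, the direction `i` of `sep` gives a contradiction (the intervals
  `[a k i - h, a k i + m k i + h]` and `[a k' i, a k' i + m k' i]` are disjoint); so `k' = k`, and in the direction `σ.1` this is `0 ≤ dp` (`dp ≤ h ≤ m`).  The same for `Su`: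
  the coordinates `i ≠ σ.1` are not `a i`, `a i + m i`; in the direction `σ.1`: `dp = 0` (`dp = m` is impossible, `m > h`).
* `slb_rr`: let `RR x` with `k', i, i'`.  `k' ≠ k`: as before (`RR` gives coordinates in `[a k' - h, a k' + m k' + h]`).  `k' = k`: `i' ≠ σ.1` is impossible (`okc`
  in the direction `i'`), so `i' = σ.1`, `i ≠ σ.1`: `okc` in the direction `i` contradicts that `x i` is within `h` of a face.
* `slb_uniq`: `k ≠ k'`: the direction `i` of `sep`, `x i` and `x' i` differ by at most `1`, the distance of the intervals is at least `4`.  `k = k'`: if `σ.1 ≠ σ'.1` then `x (σ'.1)` is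
  `okc` and `x' (σ'.1)` is within `h` of a face: the difference is at least `2`.  If `σ.1 = σ'.1`, `σ.2 ≠ σ'.2`: `m ≥ 8 h + 8`.
* `su_slb`: `Su x` with the box `k` and the direction `i`; for `i' ≠ i`, `¬ RR x` gives `okc k i' x`.  `σ = (i, false)` or `(i, true)`.
* `in_adj`: `In x`, not `Su x`: all coordinates of `x` are strictly inside, so `y` is in the box.
-/

set_option autoImplicit false

open Finset Filter

namespace Pool.Agent.LC

open Pool.Agent.LO Pool.Agent.LIN Pool.Agent.THR Pool.Agent.COR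

variable {d N h : ℕ} {ι : Type} (D : Bxs d N h ι)

private theorem B1_rng {k : ι} {σ : Stp d} {x : BxV d N} (hx : D.slb k σ x) (i : Fin d) :
    D.a k i ≤ (x i).val + h ∧ (x i).val ≤ D.a k i + D.m k i + h := by
  rcases eq_or_ne i σ.1 with e | e
  · have h1 := hx.2
    unfold Bxs.dp at h1
    rw [← e] at h1
    by_cases hσ : σ.2 = true
    · rw [if_pos hσ] at h1
      omega
    · rw [if_neg hσ] at h1
      omega
  · have h1 := hx.1 i e
    unfold Bxs.okc at h1
    omega

private theorem B1_sep {k k' : ι} (hk : k ∈ D.I) (hk' : k' ∈ D.I) {x x' : BxV d N}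
    (hx : ∀ i, D.a k i ≤ (x i).val + h ∧ (x i).val ≤ D.a k i + D.m k i + h)
    (hx' : ∀ i, D.a k' i ≤ (x' i).val + h ∧ (x' i).val ≤ D.a k' i + D.m k' i + h)
    (hd : ∀ i, (x i).val ≤ (x' i).val + 1 ∧ (x' i).val ≤ (x i).val + 1) : k = k' := by
  by_contra hne
  obtain ⟨i, hi⟩ := D.sep k hk k' hk' hne
  have h1 := hx i
  have h2 := hx' i
  have h3 := hd i
  omega

private theorem B1_refl (x : BxV d N) : ∀ i, (x i).val ≤ (x i).val + 1 ∧ (x i).val ≤ (x i).val + 1 :=
  fun _ => ⟨Nat.le_succ _, Nat.le_succ _⟩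

private theorem B1_inD {k : ι} {x : BxV d N} (hx : D.inD k x) (i : Fin d) :
    D.a k i ≤ (x i).val + h ∧ (x i).val ≤ D.a k i + D.m k i + h := by
  have h1 := hx i
  omega

private theorem B1_in {k : ι} (hk : k ∈ D.I) {σ : Stp d} {x : BxV d N} (hx : D.slb k σ x)
    (h0 : 0 ≤ D.dp k σ x) : D.inD k x := by
  intro i
  rcases eq_or_ne i σ.1 with e | e
  · have h1 := hx.2
    have h2 := D.big k hk i
    unfold Bxs.dp at h1 h0
    rw [← e] at h1 h0
    by_cases hσ : σ.2 = true
    · rw [if_pos hσ] at h1 h0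
      omega
    · rw [if_neg hσ] at h1 h0
      omega
  · have h1 := hx.1 i e
    unfold Bxs.okc at h1
    omega

theorem slb_in {k : ι} (hk : k ∈ D.I) {σ : Stp d} {x : BxV d N} (hx : D.slb k σ x) : D.In x ↔ 0 ≤ D.dp k σ x := by
  constructor
  · rintro ⟨k', hk', hin⟩
    obtain rfl := B1_sep D hk hk' (B1_rng D hx) (B1_inD D hin) (B1_refl x)
    have h1 := hin σ.1
    unfold Bxs.dp
    split_ifs <;> omega
  · intro h0
    exact ⟨k, hk, B1_in D hk hx h0⟩

theorem slb_su {k : ι} (hk : k ∈ D.I) {σ : Stp d} {x : BxV d N} (hx : D.slb k σ x) : D.Su x ↔ D.dp k σ x = 0 := by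
  constructor
  · rintro ⟨k', hk', hin, i, hi⟩
    obtain rfl := B1_sep D hk hk' (B1_rng D hx) (B1_inD D hin) (B1_refl x)
    have h2 := D.big k hk i
    rcases eq_or_ne i σ.1 with e | e
    · have h1 := hx.2
      unfold Bxs.dp at h1 ⊢
      rw [← e] at h1 ⊢
      by_cases hσ : σ.2 = true
      · rw [if_pos hσ] at h1 ⊢
        omega
      · rw [if_neg hσ] at h1 ⊢
        omega
    · have h1 := hx.1 i e
      unfold Bxs.okc at h1
      omega
  · intro h0
    refine ⟨k, hk, B1_in D hk hx h0.ge, σ.1, ?_⟩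
    unfold Bxs.dp at h0
    by_cases hσ : σ.2 = true
    · rw [if_pos hσ] at h0
      omega
    · rw [if_neg hσ] at h0
      omega

theorem slb_rr {k : ι} (hk : k ∈ D.I) {σ : Stp d} {x : BxV d N} (hx : D.slb k σ x) : ¬ D.RR x := by
  rintro ⟨k', hk', i, i', hne, hall, hor⟩
  have hrng : ∀ j, D.a k' j ≤ (x j).val + h ∧ (x j).val ≤ D.a k' j + D.m k' j + h := by
    intro j
    have h2 := D.big k' hk' j
    rcases eq_or_ne j i with e | e
    · rw [e] at h2 ⊢
      rcases hor with ⟨h3, h4, h5⟩ | ⟨h3, h4⟩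
      · omega
      · omega
    · rcases eq_or_ne j i' with e' | e'
      · rw [e'] at h2 ⊢
        rcases hor with ⟨h3, h4, h5⟩ | ⟨h3, h4⟩
        · omega
        · omega
      · have h3 := hall j e e'
        omega
  obtain rfl := B1_sep D hk hk' (B1_rng D hx) hrng (B1_refl x)
  rcases eq_or_ne i' σ.1 with e | e
  · have h1 := hx.1 i (fun e' => hne (e'.trans e.symm))
    unfold Bxs.okc at h1
    rcases hor with ⟨h3, h4, h5⟩ | ⟨h3, h4⟩
    · omega
    · omega
  · have h1 := hx.1 i' e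
    unfold Bxs.okc at h1
    rcases hor with ⟨h3, h4, h5⟩ | ⟨h3, h4⟩
    · omega
    · omega

private theorem B1_near {x x' : BxV d N} (h : x = x' ∨ (bG d N).Adj x x') :
    ∀ i, (x i).val ≤ (x' i).val + 1 ∧ (x' i).val ≤ (x i).val + 1 := by
  intro i
  rcases h with rfl | ⟨j, h1, h2⟩
  · omega
  · rcases eq_or_ne i j with rfl | e
    · omega
    · rw [h1 i e]
      omega

theorem slb_uniq {k k' : ι} (hk : k ∈ D.I) (hk' : k' ∈ D.I) {σ σ' : Stp d} {x x' : BxV d N} (hx : D.slb k σ x)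
    (hx' : D.slb k' σ' x') (h : x = x' ∨ (bG d N).Adj x x') : k = k' ∧ σ = σ' := by
  have hn := B1_near h
  obtain rfl := B1_sep D hk hk' (B1_rng D hx) (B1_rng D hx') hn
  refine ⟨rfl, ?_⟩
  have h3 := hn σ'.1
  have hd := hx.2
  have hd' := hx'.2
  have hb := D.big k hk σ'.1
  unfold Bxs.dp at hd hd'
  rcases eq_or_ne σ'.1 σ.1 with e | e
  · rw [← e] at hd
    refine Prod.ext e.symm ?_
    by_contra hne
    by_cases hσ : σ.2 = true
    · have hσ' : ¬ σ'.2 = true := fun h4 => hne (hσ.trans h4.symm)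
      rw [if_pos hσ] at hd
      rw [if_neg hσ'] at hd'
      omega
    · have hσ' : σ'.2 = true := by
        by_contra h4
        rw [Bool.not_eq_true] at hσ h4
        exact hne (hσ.trans h4.symm)
      rw [if_neg hσ] at hd
      rw [if_pos hσ'] at hd'
      omega
  · exfalso
    have h1 := hx.1 σ'.1 e
    unfold Bxs.okc at h1
    by_cases hσ' : σ'.2 = true
    · rw [if_pos hσ'] at hd'
      omega
    · rw [if_neg hσ'] at hd'
      omega

theorem su_slb {x : BxV d N} (hx : D.Su x) (hR : ¬ D.RR x) : ∃ k ∈ D.I, ∃ σ : Stp d, D.slb k σ x ∧ D.dp k σ x = 0 := by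
  obtain ⟨k, hk, hin, i, hi⟩ := hx
  have hok : ∀ i', i' ≠ i → D.okc k i' x := by
    intro i' hi'
    by_contra hcon
    refine hR ⟨k, hk, i, i', hi'.symm, fun j _ _ => hin j, Or.inl ⟨hi, hin i', ?_⟩⟩
    unfold Bxs.okc at hcon
    omega
  rcases hi with hi | hi
  · have h0 : D.dp k (i, false) x = 0 := by
      unfold Bxs.dp
      simp only [Bool.false_eq_true, if_false]
      omega
    refine ⟨k, hk, (i, false), ⟨hok, ?_, ?_⟩, h0⟩
    · rw [h0]
      omega
    · rw [h0]
      omega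
  · have h0 : D.dp k (i, true) x = 0 := by
      unfold Bxs.dp
      simp only [if_true]
      omega
    refine ⟨k, hk, (i, true), ⟨hok, ?_, ?_⟩, h0⟩
    · rw [h0]
      omega
    · rw [h0]
      omega

private theorem B1_adj {x y : BxV d N} (h : (bG d N).Adj x y) (hx : ¬ D.Su x) (hin : D.In x) : D.In y := by
  obtain ⟨k, hk, hk'⟩ := hin
  refine ⟨k, hk, fun i => ?_⟩
  have h1 := B1_near (Or.inr h) i
  have h2 := hk' i
  have h3 : (x i).val ≠ D.a k i := fun e => hx ⟨k, hk, hk', i, Or.inl e⟩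
  have h4 : (x i).val ≠ D.a k i + D.m k i := fun e => hx ⟨k, hk, hk', i, Or.inr e⟩
  omega

theorem in_adj {x y : BxV d N} (h : (bG d N).Adj x y) (hx : ¬ D.Su x) (hy : ¬ D.Su y) : D.In x ↔ D.In y :=
  ⟨B1_adj D h hx, B1_adj D h.symm hy⟩

end Pool.Agent.LC
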