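import Pool.Agent.Lib_MP_2c424f_lc6a.Defs2

/-!
# LC6a B2: neighbours of slab points; the mirror image

* `slb_nb`: let `y` differ from `x` in the direction `i` by `1`.  `i = σ.1`: `|dp y - dp x| = 1`, the other coordinates are `okc`.  `i ≠ σ.1`: `dp y = dp x`; if `y i` is not
  `okc` then `y i = a i + 2 h + 1` or `y i + 2 h + 1 = a i + m i`, and `RR y` (with the directions `σ.1`, `i`; `x (σ.1)` is within `h` of the face `σ`).
* `mir_val`: the values do not exceed `N` (`lo`, `hi`, `dp ≥ -h`).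
* `mir_adj`: both points are changed in the direction `σ.1` by the same reflection.
* `mir_ev`: `2 a - x` and `2 (a + m) - x` have the parity of `x`; only one summand of `∑ i, (x i).val` changes.
-/

set_option autoImplicit false

open Finset Filter

namespace Pool.Agent.LC

open Pool.Agent.LO Pool.Agent.LIN Pool.Agent.THR Pool.Agent.COR

variable {d N h : ℕ} {ι : Type} (D : Bxs d N h ι)

theorem slb_nb {k : ι} (hk : k ∈ D.I) {σ : Stp d} {x y : BxV d N} (hx : D.slb k σ x) (h : (bG d N).Adj x y)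
    (hR : ¬ D.RR y) : (∀ i, i ≠ σ.1 → D.okc k i y) ∧ |D.dp k σ y - D.dp k σ x| ≤ 1 := by
  obtain ⟨i, hi1, hi2⟩ := h
  have hdif : ((y σ.1).val : ℤ) - (x σ.1).val ≤ 1 ∧ -1 ≤ ((y σ.1).val : ℤ) - (x σ.1).val := by
    rcases eq_or_ne σ.1 i with e | e
    · rw [e]
      omega
    · rw [hi1 _ e]
      omega
  constructor
  · intro i' hi'
    have h1 := hx.1 i' hi'
    unfold Bxs.okc at h1 ⊢
    rcases eq_or_ne i' i with e | e
    · by_contra hcon
      refine hR ⟨k, hk, σ.1, i', fun e' => hi' e'.symm, ?_, Or.inr ⟨?_, ?_⟩⟩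
      · intro j hj hj'
        have h2 := hx.1 j hj
        unfold Bxs.okc at h2
        rw [← hi1 j (fun e' => hj' (e'.trans e.symm))]
        omega
      · have h3 : σ.1 ≠ i := fun e' => hi' (e.trans e'.symm)
        rw [← hi1 σ.1 h3]
        have h4 := hx.2
        unfold Bxs.dp at h4
        by_cases hσ : σ.2 = true
        · rw [if_pos hσ] at h4
          right
          omega
        · rw [if_neg hσ] at h4
          left
          omega
      · rw [e] at hcon h1 ⊢
        omega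
    · rw [← hi1 i' e]
      exact h1
  · unfold Bxs.dp
    rw [abs_le]
    by_cases hσ : σ.2 = true
    · rw [if_pos hσ, if_pos hσ]
      omega
    · rw [if_neg hσ, if_neg hσ]
      omega

private theorem B2_val {k : ι} (hk : k ∈ D.I) {σ : Stp d} {x : BxV d N} (hx : D.slb k σ x) (j : Fin d) :
    ((D.mir k σ x) j).val = if j = σ.1 then
      (if σ.2 then 2 * (D.a k j + D.m k j) - (x j).val else 2 * D.a k j - (x j).val) else (x j).val := by
  unfold Bxs.mir
  by_cases hj : j = σ.1
  · rw [if_pos hj, if_pos hj, Fin.val_ofNat]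
    refine Nat.mod_eq_of_lt ?_
    have h1 := D.lo k hk j
    have h2 := D.hi k hk j
    have h3 := hx.2
    unfold Bxs.dp at h3
    rw [← hj] at h3
    by_cases hσ : σ.2 = true
    · rw [if_pos hσ] at h3 ⊢
      omega
    · rw [if_neg hσ] at h3 ⊢
      omega
  · rw [if_neg hj, if_neg hj]

theorem mir_slb {k : ι} (hk : k ∈ D.I) {σ : Stp d} {x : BxV d N} (hx : D.slb k σ x) :
    D.slb k σ (D.mir k σ x) ∧ D.dp k σ (D.mir k σ x) = -D.dp k σ x ∧ D.mir k σ (D.mir k σ x) = x := by
  have hv := B2_val D hk hx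
  have h1 := D.lo k hk σ.1
  have h2 := D.hi k hk σ.1
  have h3 := hx.2
  have hdp : D.dp k σ (D.mir k σ x) = -D.dp k σ x := by
    unfold Bxs.dp at h3 ⊢
    rw [hv σ.1, if_pos rfl]
    by_cases hσ : σ.2 = true
    · simp only [if_pos hσ] at h3 ⊢
      omega
    · simp only [if_neg hσ] at h3 ⊢
      omega
  have hs : D.slb k σ (D.mir k σ x) := by
    refine ⟨fun i hi => ?_, ?_, ?_⟩
    · have h4 := hx.1 i hi
      unfold Bxs.okc at h4 ⊢
      rw [hv i, if_neg hi]
      exact h4
    · rw [hdp]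
      omega
    · rw [hdp]
      omega
  refine ⟨hs, hdp, ?_⟩
  funext j
  apply Fin.ext
  rw [B2_val D hk hs j, hv j]
  by_cases hj : j = σ.1
  · rw [if_pos hj, if_pos hj]
    unfold Bxs.dp at h3
    rw [← hj] at h1 h2 h3
    by_cases hσ : σ.2 = true
    · simp only [if_pos hσ] at h3 ⊢
      omega
    · simp only [if_neg hσ] at h3 ⊢
      omega
  · rw [if_neg hj, if_neg hj]

private theorem B2_adj {k : ι} (hk : k ∈ D.I) {σ : Stp d} {x y : BxV d N} (hx : D.slb k σ x) (hy : D.slb k σ y)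
    (h : (bG d N).Adj x y) : (bG d N).Adj (D.mir k σ x) (D.mir k σ y) := by
  obtain ⟨i, hi1, hi2⟩ := h
  have hvx := B2_val D hk hx
  have hvy := B2_val D hk hy
  refine ⟨i, fun j hj => ?_, ?_⟩
  · apply Fin.ext
    rw [hvx j, hvy j, hi1 j hj]
  · rw [hvx i, hvy i]
    by_cases hi : i = σ.1
    · rw [if_pos hi, if_pos hi]
      have h1 := D.lo k hk i
      have h2 := D.hi k hk i
      have h3 := hx.2
      have h4 := hy.2
      unfold Bxs.dp at h3 h4
      rw [← hi] at h3 h4
      by_cases hσ : σ.2 = true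
      · simp only [if_pos hσ] at h3 h4 ⊢
        omega
      · simp only [if_neg hσ] at h3 h4 ⊢
        omega
    · rw [if_neg hi, if_neg hi]
      exact hi2

theorem mir_adj {k : ι} (hk : k ∈ D.I) {σ : Stp d} {x y : BxV d N} (hx : D.slb k σ x) (hy : D.slb k σ y) :
    (bG d N).Adj (D.mir k σ x) (D.mir k σ y) ↔ (bG d N).Adj x y := by
  refine ⟨fun h' => ?_, B2_adj D hk hx hy⟩
  obtain ⟨sx, -, ex⟩ := mir_slb D hk hx
  obtain ⟨sy, -, ey⟩ := mir_slb D hk hy
  have h1 := B2_adj D hk sx sy h'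
  rwa [ex, ey] at h1

theorem mir_ev {k : ι} (hk : k ∈ D.I) {σ : Stp d} {x : BxV d N} (hx : D.slb k σ x) : bev (D.mir k σ x) ↔ bev x := by
  have hv := B2_val D hk hx
  unfold bev
  rw [← Finset.add_sum_erase univ (fun i => ((D.mir k σ x) i).val) (mem_univ σ.1),
    ← Finset.add_sum_erase univ (fun i => (x i).val) (mem_univ σ.1)]
  have h1 : ∑ i ∈ univ.erase σ.1, ((D.mir k σ x) i).val = ∑ i ∈ univ.erase σ.1, (x i).val := by
    refine Finset.sum_congr rfl fun i hi => ?_
    rw [hv i, if_neg (Finset.ne_of_mem_erase hi)]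
  have h2 : Even ((D.mir k σ x) σ.1).val ↔ Even (x σ.1).val := by
    rw [hv σ.1, if_pos rfl, Nat.even_iff, Nat.even_iff]
    have h3 := D.lo k hk σ.1
    have h4 := D.hi k hk σ.1
    have h5 := hx.2
    unfold Bxs.dp at h5
    by_cases hσ : σ.2 = true
    · simp only [if_pos hσ] at h5 ⊢
      omega
    · simp only [if_neg hσ] at h5 ⊢
      omega
  rw [h1, Nat.even_add, Nat.even_add, h2]

/-- neighbours in a slab: the coordinates which are not changed -/
theorem slb_foot {k : ι} {σ : Stp d} {x y z : BxV d N} (h : (bG d N).Adj x y) (h' : (bG d N).Adj x z)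
    (h1 : D.dp k σ y ≠ D.dp k σ x) (h2 : D.dp k σ y = D.dp k σ z) : y = z := by
  obtain ⟨i, hi1, hi2⟩ := h
  obtain ⟨i', hi1', hi2'⟩ := h'
  have e : σ.1 = i := by
    by_contra hne
    apply h1
    unfold Bxs.dp
    rw [hi1 σ.1 hne]
  have e' : σ.1 = i' := by
    by_contra hne
    apply h1
    rw [h2]
    unfold Bxs.dp
    rw [hi1' σ.1 hne]
  funext j
  rcases eq_or_ne j σ.1 with rfl | hj
  · apply Fin.ext
    unfold Bxs.dp at h2
    by_cases hσ : σ.2 = true
    · simp only [if_pos hσ] at h2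
      omega
    · simp only [if_neg hσ] at h2
      omega
  · rw [← hi1 j (fun h => hj (h.trans e.symm)), ← hi1' j (fun h => hj (h.trans e'.symm))]

end Pool.Agent.LC
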