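import Pool.Agent.Lib_MP_2c424f_lc6a.B1
import Pool.Agent.Lib_MP_2c424f_lc6a.B2

/-!
# LC6a B3: the layer

A vertex `(y, c)` is an image of the layer iff (`c = true` and `y` is a slab point with `0 < dp`) or (`c = false` and `y` is a slab point with `dp < 0`) (`mir_slb`; `il_image`).
* `inj`: `slb_uniq` with `x = x'`; `mir` is injective on a slab (`mir (mir x) = x`).  `lt`: `dp ≤ h`.  `lvl`: `slb_nb` (`slb_rr`).  `par`: `mir_ev`.
* `adj`, `adj'`: `b ≠ b'`: the two points are on different sheets, none is on the surface (`slb_su`): no edge.  `b = b'`: neither is on the surface, so the edge is one of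
  `bG d N` and `slb_uniq` gives the same `(k, σ)`; `mir_adj`; `slb_rr`.
* `out`: `v = (y, c)`, neighbour of `(x, true)` or `(mir x, false)` =: `(x₁, c₁)`.  `slb_nb`: `y` is `okc` in the other directions and `|dp y - dp x₁| ≤ 1`.  If `0 < lv p` and
  `lv p + 1 < h` then `1 ≤ |dp y| ≤ h` and `dp y` has the sign of `dp x₁`, so `y` is not on the surface (`slb_su`), hence `c = c₁`: `v` is an image, contradiction.
* `oo`: `v = (y, c)`, `w = (y', c')`, not removed.  If both or none of `y, y'` are surface points: the same condition `c = c'`.  If `Su y`, not `Su y'` (or the other way round): `su_slb`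
  for `y`, `slb_nb` for `y'`: `y'` is a slab point (`2 ≤ h`) with `dp = ±1` (not `0` by `slb_su`).  `dp y' = 1`: `In y'`, and `(y', true)` is an image, so `c' = false`: `TX` says `c = false`, `TC` says `c = c'`.
  `dp y' = -1`: not `In y'`, `(y', false)` is an image, so `c' = true`; `TX` says `c = true`.
* `oi`: `v = (y, c)` outside.  Level `≠ 0`: `y` is not a surface point (a surface neighbour is a slab point of the same face by `su_slb`, `slb_uniq`, with `dp = 0`), both conditions are the same.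
  Level `0`: for `i b p = (x, true)`: both sides are equivalent to: `y` is the surface neighbour of `x` (the neighbour with `dp = 0`) and `c = true`: a neighbour `y` (not removed) of `x` with `c = true`
  is a slab point of the same face with `dp = 0, 1, 2` (`2 ≤ h`), `dp ≥ 1` would be an image.  A neighbour `y` of `mir x` is a slab point with `dp = 0, -1, -2`; if `dp < 0` then `TX` says `c = false` and `(y, false)` is an image;
  if `dp = 0`, `TX` says `c = true` (`mir x` is not in `In`); `slb_foot` and the foot of `x` is its own mirror image: the neighbour with `dp = 0` of `x` and of `mir x` is the same point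
  (`mir y` is a neighbour of `mir x` by `mir_adj`, `dp (mir y) = 0`, and `mir y = y` if `dp y = 0`).  The same for `i b p = (mir x, false)`.
-/

set_option autoImplicit false

open Finset Filter

namespace Pool.Agent.LC

open Pool.Agent.LO Pool.Agent.LIN Pool.Agent.THR Pool.Agent.COR

variable {d N h : ℕ} {ι : Type} (D : Bxs d N h ι)

/-- the images of the layer -/
theorem il_image (y : BxV d N) (c : Bool) : (∃ b p, (y, c) = D.il b p) ↔
    ∃ k ∈ D.I, ∃ σ : Stp d, D.slb k σ y ∧ ((c = true ∧ 0 < D.dp k σ y) ∨ (c = false ∧ D.dp k σ y < 0)) := by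
  constructor
  · rintro ⟨b, p, hp⟩
    obtain ⟨⟨⟨⟨k, hk⟩, σ⟩, x⟩, h1, h2⟩ := p
    cases b with
    | false =>
      have h3 : (y, c) = (x, true) := hp
      obtain ⟨rfl, rfl⟩ := Prod.mk.inj h3
      exact ⟨k, hk, σ, h1, Or.inl ⟨rfl, h2⟩⟩
    | true =>
      have h3 : (y, c) = (D.mir k σ x, false) := hp
      obtain ⟨rfl, rfl⟩ := Prod.mk.inj h3
      obtain ⟨h4, h5, h6⟩ := mir_slb D hk h1
      refine ⟨k, hk, σ, h4, Or.inr ⟨rfl, ?_⟩⟩
      have h7 : 0 < D.dp k σ x := h2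
      have h8 : D.dp k σ (D.mir k σ x) = -D.dp k σ x := h5
      omega
  · rintro ⟨k, hk, σ, h1, ⟨rfl, h2⟩ | ⟨rfl, h2⟩⟩
    · exact ⟨false, ⟨((⟨k, hk⟩, σ), y), h1, h2⟩, rfl⟩
    · obtain ⟨h4, h5, h6⟩ := mir_slb D hk h1
      refine ⟨true, ⟨((⟨k, hk⟩, σ), D.mir k σ y), h4, ?_⟩, ?_⟩
      · show 0 < D.dp k σ (D.mir k σ y)
        omega
      · show (y, false) = (D.mir k σ (D.mir k σ y), false)
        rw [h6]

private theorem B3_info (b : Bool) (p : D.Lam) : D.slb p.1.1.1.1 p.1.1.2 (D.il b p).1 ∧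
    D.dp p.1.1.1.1 p.1.1.2 (D.il b p).1 = (if b then -D.dp p.1.1.1.1 p.1.1.2 p.1.2 else D.dp p.1.1.1.1 p.1.1.2 p.1.2) ∧
    (D.il b p).2 = !b ∧ (D.il (!b) p).1 = D.mir p.1.1.1.1 p.1.1.2 (D.il b p).1 := by
  have h1 := mir_slb D p.1.1.1.2 p.2.1
  cases b with
  | false => exact ⟨p.2.1, rfl, rfl, rfl⟩
  | true => exact ⟨h1.1, h1.2.1, rfl, h1.2.2.symm⟩

private theorem B3_lv (p : D.Lam) : 1 ≤ D.dp p.1.1.1.1 p.1.1.2 p.1.2 ∧ D.dp p.1.1.1.1 p.1.1.2 p.1.2 ≤ h ∧
    ((D.lv p : ℕ) : ℤ) = D.dp p.1.1.1.1 p.1.1.2 p.1.2 - 1 := by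
  have h1 := p.2.1.2.2
  have h2 := p.2.2
  refine ⟨by omega, h1, ?_⟩
  unfold Bxs.lv
  omega

private theorem B3_sgn (b : Bool) (p : D.Lam) :
    (D.In (D.il b p).1 ↔ b = false) ∧ ¬ D.Su (D.il b p).1 ∧ ¬ D.RR (D.il b p).1 := by
  obtain ⟨h1, h2, -, -⟩ := B3_info D b p
  obtain ⟨h3, -, -⟩ := B3_lv D p
  have hk := p.1.1.1.2
  refine ⟨?_, ?_, slb_rr D hk h1⟩
  · rw [slb_in D hk h1, h2]
    cases b with
    | false => simp; omega
    | true => simp; omega
  · rw [slb_su D hk h1, h2]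
    cases b with
    | false => simp; omega
    | true => simp; omega

/-- a surface neighbour of a slab point is the foot -/
private theorem B3_su {k : ι} (hk : k ∈ D.I) {σ : Stp d} {x y : BxV d N} (hx : D.slb k σ x) (ha : (bG d N).Adj x y)
    (hS : D.Su y) (hR : ¬ D.RR y) : D.slb k σ y ∧ D.dp k σ y = 0 := by
  obtain ⟨k', hk', σ', h1, h2⟩ := su_slb D hS hR
  obtain ⟨rfl, rfl⟩ := slb_uniq D hk hk' hx h1 (Or.inr ha)
  exact ⟨h1, h2⟩

/-- neighbours of surface points outside the images -/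
private theorem B3_oo (hh : 1 ≤ h) {y y' : BxV d N} {c' : Bool} (hS : D.Su y) (hR : ¬ D.RR y) (ha : (bG d N).Adj y y')
    (hR' : ¬ D.RR y') (hS' : ¬ D.Su y') (hv : ∀ b p, (y', c') ≠ D.il b p) : c' = false ↔ D.In y' := by
  obtain ⟨k, hk, σ, h1, h2⟩ := su_slb D hS hR
  obtain ⟨h3, h4⟩ := slb_nb D hk h1 ha hR'
  rw [h2, sub_zero, abs_le] at h4
  have h5 : D.slb k σ y' := ⟨h3, by omega, by omega⟩
  have h6 : D.dp k σ y' ≠ 0 := fun h => hS' ((slb_su D hk h5).2 h)
  rw [slb_in D hk h5]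
  have h7 : ¬ ∃ b p, (y', c') = D.il b p := fun ⟨b, p, h⟩ => hv b p h
  rw [il_image] at h7
  cases c' with
  | false =>
    refine ⟨fun _ => ?_, fun _ => rfl⟩
    by_contra h8
    exact h7 ⟨k, hk, σ, h5, Or.inr ⟨rfl, by omega⟩⟩
  | true =>
    refine ⟨fun h => Bool.noConfusion h, fun h8 => ?_⟩
    exact (h7 ⟨k, hk, σ, h5, Or.inl ⟨rfl, by omega⟩⟩).elim

/-- a neighbour of a layer point, in the same sheet and outside the images, has depth `0` if the level is `0` -/
private theorem B3_foot (hh : 2 ≤ h) (b : Bool) (p : D.Lam) (hl : D.lv p = 0) {y : BxV d N} {c : Bool}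
    (hv : ∀ b p, (y, c) ≠ D.il b p) (ha : (bG d N).Adj (D.il b p).1 y) (hR : ¬ D.RR y)
    (hc : D.Su y ∨ c = (D.il b p).2) :
    D.slb p.1.1.1.1 p.1.1.2 y ∧ D.dp p.1.1.1.1 p.1.1.2 y = 0 := by
  obtain ⟨h1, h2, h3, -⟩ := B3_info D b p
  obtain ⟨h4, h5, h6⟩ := B3_lv D p
  have hk := p.1.1.1.2
  rcases hc with hS | hc
  · exact B3_su D hk h1 ha hS hR
  · obtain ⟨h7, h8⟩ := slb_nb D hk h1 ha hR
    have h9 : D.dp p.1.1.1.1 p.1.1.2 p.1.2 = 1 := by omega
    rw [h9] at h2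
    rw [h2, abs_le] at h8
    have h10 : D.slb p.1.1.1.1 p.1.1.2 y := by
      refine ⟨h7, ?_, ?_⟩ <;> cases b <;> simp at h8 <;> omega
    refine ⟨h10, ?_⟩
    have h11 : ¬ ∃ b p, (y, c) = D.il b p := fun ⟨b, p, h⟩ => hv b p h
    rw [il_image] at h11
    by_contra h12
    rw [h3] at hc
    cases b with
    | false =>
      simp at h8 hc
      exact h11 ⟨_, hk, _, h10, Or.inl ⟨hc, by omega⟩⟩
    | true =>
      simp at h8 hc
      exact h11 ⟨_, hk, _, h10, Or.inr ⟨hc, by omega⟩⟩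

private theorem B3_fix {k : ι} (hk : k ∈ D.I) {σ : Stp d} {y : BxV d N} (hy : D.dp k σ y = 0) : D.mir k σ y = y := by
  funext j
  unfold Bxs.mir
  split_ifs with h1 h2
  · subst h1
    unfold Bxs.dp at hy
    rw [if_pos h2] at hy
    ext
    have h3 := (y σ.1).isLt
    rw [Fin.val_ofNat, Nat.mod_eq_of_lt (by omega)]
    omega
  · subst h1
    unfold Bxs.dp at hy
    rw [if_neg h2] at hy
    ext
    have h3 := (y σ.1).isLt
    rw [Fin.val_ofNat, Nat.mod_eq_of_lt (by omega)]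
    omega
  · rfl

/-- the foot of a layer point is a neighbour of both copies -/
private theorem B3_both (b : Bool) (p : D.Lam) {y : BxV d N} (hy : D.slb p.1.1.1.1 p.1.1.2 y)
    (hy0 : D.dp p.1.1.1.1 p.1.1.2 y = 0) (ha : (bG d N).Adj (D.il b p).1 y) : (bG d N).Adj (D.il (!b) p).1 y := by
  obtain ⟨h1, -, -, h4⟩ := B3_info D b p
  have hk := p.1.1.1.2
  rw [h4]
  have h5 := (mir_adj D hk h1 hy).2 ha
  rwa [B3_fix D hk hy0] at h5

private theorem B3_adj (X : SimpleGraph (BxV d N × Bool))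
    (hX : ∀ v w : BxV d N × Bool, ¬ D.Su v.1 → ¬ D.Su w.1 → ¬ D.RR v.1 → ¬ D.RR w.1 →
      (X.Adj v w ↔ (bG d N).Adj v.1 w.1 ∧ v.2 = w.2)) (b b' : Bool) (p p' : D.Lam) :
    X.Adj (D.il b p) (D.il b' p') ↔ b = b' ∧ D.GrL.Adj p p' := by
  obtain ⟨h1, h2, h3, h4⟩ := B3_info D b p
  obtain ⟨h1', h2', h3', h4'⟩ := B3_info D b' p'
  obtain ⟨-, h5, h6⟩ := B3_sgn D b p
  obtain ⟨-, h5', h6'⟩ := B3_sgn D b' p'
  rw [hX _ _ h5 h5' h6 h6', h3, h3']
  have hb : ((!b) = !b') ↔ b = b' := by cases b <;> cases b' <;> simp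
  rw [hb, and_comm]
  refine and_congr_right fun hbb => ?_
  subst hbb
  obtain ⟨⟨⟨⟨k, hk⟩, σ⟩, x⟩, hx1, hx2⟩ := p
  obtain ⟨⟨⟨⟨k', hk'⟩, σ'⟩, x'⟩, hx1', hx2'⟩ := p'
  constructor
  · intro ha
    obtain ⟨e1, e2⟩ := slb_uniq D hk hk' h1 h1' (Or.inr ha)
    have e1' : k = k' := e1
    have e2' : σ = σ' := e2
    subst e1'
    subst e2'
    refine ⟨rfl, ?_⟩
    cases b with
    | false => exact ha
    | true => exact (mir_adj D hk hx1 hx1').1 ha
  · rintro ⟨e1, ha⟩
    have e2 : ((⟨k, hk⟩ : {k // k ∈ D.I}), σ) = (⟨k', hk'⟩, σ') := e1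
    obtain ⟨e3, e4⟩ := Prod.mk.inj e2
    have e5 : k = k' := congrArg Subtype.val e3
    subst e5
    subst e4
    cases b with
    | false => exact ha
    | true => exact (mir_adj D hk hx1 hx1').2 ha

theorem lay (hh : 2 ≤ h) : Layer h D.XX D.XC (fun v => bev v.1) D.GrL D.lv D.il := by
  refine ⟨?_, ?_, ?_, ?_, ?_, ?_, ?_, ?_, ?_⟩
  · -- inj
    intro b b' p p' he
    obtain ⟨h1, -, h3, -⟩ := B3_info D b p
    obtain ⟨h1', -, h3', -⟩ := B3_info D b' p'
    have hb : b = b' := by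
      have h5 : (!b) = !b' := by rw [← h3, ← h3', he]
      cases b <;> cases b' <;> simp at h5 ⊢
    subst hb
    refine ⟨rfl, ?_⟩
    obtain ⟨⟨⟨⟨k, hk⟩, σ⟩, x⟩, hx1, hx2⟩ := p
    obtain ⟨⟨⟨⟨k', hk'⟩, σ'⟩, x'⟩, hx1', hx2'⟩ := p'
    obtain ⟨e1, e2⟩ := slb_uniq D hk hk' h1 h1' (Or.inl (congrArg Prod.fst he))
    have e1' : k = k' := e1
    have e2' : σ = σ' := e2
    subst e1'
    subst e2'
    have e3 : x = x' := by
      cases b with
      | false => exact congrArg Prod.fst he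
      | true =>
        have h6 : D.mir k σ x = D.mir k σ x' := congrArg Prod.fst he
        have h7 : D.mir k σ (D.mir k σ x) = x := (mir_slb D hk hx1).2.2
        have h8 : D.mir k σ (D.mir k σ x') = x' := (mir_slb D hk hx1').2.2
        rw [← h7, h6, h8]
    subst e3
    rfl
  · -- lt
    intro p
    obtain ⟨h4, h5, h6⟩ := B3_lv D p
    omega
  · -- lvl
    intro p p' hp
    obtain ⟨⟨⟨⟨k, hk⟩, σ⟩, x⟩, hx1, hx2⟩ := p
    obtain ⟨⟨⟨⟨k', hk'⟩, σ'⟩, x'⟩, hx1', hx2'⟩ := p'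
    obtain ⟨e1, ha⟩ := hp
    have e2 : ((⟨k, hk⟩ : {k // k ∈ D.I}), σ) = (⟨k', hk'⟩, σ') := e1
    obtain ⟨e3, e4⟩ := Prod.mk.inj e2
    have e5 : k = k' := congrArg Subtype.val e3
    subst e5
    subst e4
    have h7 := (slb_nb D hk hx1 ha (slb_rr D hk hx1')).2
    have h8 : |D.dp k σ x' - D.dp k σ x| ≤ 1 := h7
    rw [abs_le] at h8
    show (D.dp k σ x - 1).toNat ≤ (D.dp k σ x' - 1).toNat + 1
    omega
  · -- par
    intro p
    exact mir_ev D p.1.1.1.2 p.2.1
  · -- adj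
    intro b b' p p'
    refine B3_adj D D.XX (fun v w hv hw hv' hw' => ?_) b b' p p'
    constructor
    · rintro ⟨⟨h1, h2⟩, -, -⟩
      refine ⟨h1, ?_⟩
      rcases h2 with h2 | h2 | h2
      · exact h2.2
      · exact absurd h2.1 hv
      · exact absurd h2.1 hw
    · rintro ⟨h1, h2⟩
      exact ⟨⟨h1, Or.inl ⟨iff_of_false hv hw, h2⟩⟩, hv', hw'⟩
  · -- adj'
    intro b b' p p'
    refine B3_adj D D.XC (fun v w hv hw hv' hw' => ?_) b b' p p'
    exact ⟨fun h1 => h1.1, fun h1 => ⟨h1, hv', hw'⟩⟩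
  · -- out
    rintro b p ⟨y, c⟩ hv ⟨⟨ha, hc⟩, hR, hR'⟩
    by_contra hne
    push Not at hne
    obtain ⟨h1, h2, h3, -⟩ := B3_info D b p
    obtain ⟨h4, h5, h6⟩ := B3_lv D p
    obtain ⟨-, hS, -⟩ := B3_sgn D b p
    have hk := p.1.1.1.2
    obtain ⟨h7, h8⟩ := slb_nb D hk h1 ha.symm hR
    have h9 : 2 ≤ D.dp p.1.1.1.1 p.1.1.2 p.1.2 ∧ D.dp p.1.1.1.1 p.1.1.2 p.1.2 + 1 ≤ h := by
      obtain ⟨g1, g2⟩ := hne
      constructor <;> omega
    have h11 : ¬ ∃ b p, (y, c) = D.il b p := fun ⟨b, p, h⟩ => hv b p h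
    rw [il_image] at h11
    rw [h2, abs_le] at h8
    have h10 : D.slb p.1.1.1.1 p.1.1.2 y := by
      refine ⟨h7, ?_, ?_⟩ <;> cases b <;> simp at h8 <;> omega
    have hSy : ¬ D.Su y := by
      rw [slb_su D hk h10]
      cases b <;> simp at h8 <;> omega
    have hcc : c = (D.il b p).2 := by
      rcases hc with h | h | h
      · exact h.2
      · exact absurd h.1 hSy
      · exact absurd h.1 hS
    rw [h3] at hcc
    cases b with
    | false =>
      simp at h8 hcc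
      exact h11 ⟨_, hk, _, h10, Or.inl ⟨hcc, by omega⟩⟩
    | true =>
      simp at h8 hcc
      exact h11 ⟨_, hk, _, h10, Or.inr ⟨hcc, by omega⟩⟩
  · -- oo
    rintro ⟨y, c⟩ ⟨y', c'⟩ hv hw
    have key : (bG d N).Adj y y' → ¬ D.RR y → ¬ D.RR y' → (c = c' ↔
        (((D.Su y ↔ D.Su y') ∧ c = c') ∨ (D.Su y ∧ ¬ D.Su y' ∧ (c = false ↔ D.In y')) ∨
          (D.Su y' ∧ ¬ D.Su y ∧ (c' = false ↔ D.In y)))) := by
      intro ha hR hR'
      by_cases h1 : D.Su y
      · by_cases h2 : D.Su y'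
        · simp [h1, h2]
        · have h3 := B3_oo D (by omega) h1 hR ha hR' h2 hw
          rw [← h3]
          simp only [h1, h2, not_true, not_false_iff, true_and, false_and, or_false, iff_false, false_or]
          cases c <;> cases c' <;> simp
      · by_cases h2 : D.Su y'
        · have h3 := B3_oo D (by omega) h2 hR' ha.symm hR h1 hv
          rw [← h3]
          simp only [h1, h2, not_true, not_false_iff, true_and, false_and, iff_true, false_or]
          cases c <;> cases c' <;> simp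
        · simp [h1, h2]
    constructor
    · rintro ⟨⟨ha, hc⟩, hR, hR'⟩
      exact ⟨⟨ha, (key ha hR hR').1 hc⟩, hR, hR'⟩
    · rintro ⟨⟨ha, hc⟩, hR, hR'⟩
      exact ⟨⟨ha, (key ha hR hR').2 hc⟩, hR, hR'⟩
  · -- oi
    rintro b p ⟨y, c⟩ hv
    obtain ⟨h1, h2, h3, h3b⟩ := B3_info D b p
    obtain ⟨h4, h5, h6⟩ := B3_lv D p
    obtain ⟨hIn, hS, hRx⟩ := B3_sgn D b p
    obtain ⟨hIn', hS', hRx'⟩ := B3_sgn D (!b) p
    obtain ⟨-, -, h3', -⟩ := B3_info D (!b) p
    have hk := p.1.1.1.2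
    by_cases hl : D.lv p = 0
    · rw [if_pos hl]
      constructor
      · rintro ⟨⟨ha, hc⟩, hR, -⟩
        have hc' : c = (D.il b p).2 := hc
        obtain ⟨h7, h8⟩ := B3_foot D hh b p hl hv ha.symm hR (Or.inr hc')
        have h9 := B3_both D b p h7 h8 ha.symm
        have hSy := (slb_su D hk h7).2 h8
        refine ⟨⟨h9.symm, Or.inr (Or.inl ⟨hSy, hS', ?_⟩)⟩, hR, hRx'⟩
        show c = false ↔ D.In (D.il (!b) p).1
        rw [hIn', hc', h3]
      · rintro ⟨⟨ha, hc⟩, hR, -⟩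
        have hcs : D.Su y ∨ c = (D.il (!b) p).2 := by
          rcases hc with h | h | h
          · exact Or.inr h.2
          · exact Or.inl h.1
          · exact absurd h.1 hS'
        obtain ⟨h7, h8⟩ := B3_foot D hh (!b) p hl hv ha.symm hR hcs
        have h9 := B3_both D (!b) p h7 h8 ha.symm
        rw [Bool.not_not] at h9
        have hSy := (slb_su D hk h7).2 h8
        have hc2 : c = false ↔ D.In (D.il (!b) p).1 := by
          rcases hc with h | h | h
          · exact absurd (h.1.1 hSy) hS'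
          · exact h.2.2
          · exact absurd h.1 hS'
        refine ⟨⟨h9.symm, ?_⟩, hR, hRx⟩
        show c = (D.il b p).2
        rw [h3]
        rw [hIn'] at hc2
        cases b <;> cases c <;> simp at hc2 ⊢
    · rw [if_neg hl]
      have hSy : (bG d N).Adj (D.il b p).1 y → ¬ D.RR y → ¬ D.Su y := by
        intro ha hR hSy
        obtain ⟨-, h8⟩ := B3_su D hk h1 ha hSy hR
        have h9 := (slb_nb D hk h1 ha hR).2
        rw [h8, h2, abs_le] at h9
        cases b <;> simp at h9 <;> omega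
      constructor
      · rintro ⟨⟨ha, hc⟩, hR, hR'⟩
        exact ⟨⟨ha, Or.inl ⟨iff_of_false (hSy ha.symm hR) hS, hc⟩⟩, hR, hR'⟩
      · rintro ⟨⟨ha, hc⟩, hR, hR'⟩
        refine ⟨⟨ha, ?_⟩, hR, hR'⟩
        rcases hc with h | h | h
        · exact h.2
        · exact absurd h.1 (hSy ha.symm hR)
        · exact absurd h.1 hS

end Pool.Agent.LC
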