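import Pool.Agent.Lib_MP_2c424f_lc6a.Defs2

/-!
# LC6a B4: the cells of the layer

`(D.kap l z u)` has the base index `z.1` and the coordinates `cps_val`: in the direction `j ≠ σ.1`: `a + 2 h + 2 + (l+2) t j + u j`; in the direction `σ.1`: depth
`2 + (l+2) t + u`.  `inj`: `(l+2) t + u = (l+2) t' + u'` with `u, u' ≤ l` implies `t = t'`, `u = u'`.  `adj`: the coordinates are `const ± u j`.  `cl`: `u` with
`1 ≤ u j ≤ l - 1`: change `u j` by `±1` (a neighbour has the same base index and differs in one coordinate).  `par`: `a`, `m`, `l` even: the sum of the coordinates has the parity of `∑ u j`.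
`kap_lv`: `lv = 1 + (l+2) t + u`, `ncl_self`.
-/

set_option autoImplicit false

open Finset Filter

namespace Pool.Agent.LC

open Pool.Agent.LO Pool.Agent.LIN Pool.Agent.THR Pool.Agent.COR

variable {d N h : ℕ} {ι : Type} (D : Bxs d N h ι)

/-- constant part of the coordinate `j` of a cell -/
private def B4_c (w : {k // k ∈ D.I} × Stp d) (j : Fin d) : ℤ :=
  if j = w.2.1 then (if w.2.2 then ((D.a w.1.1 j + D.m w.1.1 j : ℕ) : ℤ) - 2 else (D.a w.1.1 j : ℤ) + 2)
  else (D.a w.1.1 j : ℤ) + 2 * h + 2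

/-- sign of the coordinate `j` of a cell -/
private def B4_e (w : {k // k ∈ D.I} × Stp d) (j : Fin d) : ℤ := if j = w.2.1 ∧ w.2.2 = true then -1 else 1

private theorem B4_e_cases (w : {k // k ∈ D.I} × Stp d) (j : Fin d) : B4_e D w j = 1 ∨ B4_e D w j = -1 := by
  unfold B4_e
  split_ifs
  · exact Or.inr rfl
  · exact Or.inl rfl

private theorem B4_val (l : ℕ) (z : D.Cix l) (u : BxV d l) (j : Fin d) :
    (((D.cps l z u) j).val : ℤ) = B4_c D z.1 j + B4_e D z.1 j * (((l + 2) * (z.2 j).val + (u j).val : ℕ) : ℤ) := by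
  rw [D.cps_val]
  have hm := D.big z.1.1.1 z.1.1.2 j
  have hu := (u j).isLt
  unfold B4_c B4_e
  by_cases hj : j = z.1.2.1
  · have h1 := D.ncl_self (z.2 j).isLt hj
    by_cases h2 : z.1.2.2 = true
    · rw [if_pos hj, if_pos h2, if_pos hj, if_pos h2, if_pos ⟨hj, h2⟩]
      omega
    · rw [if_pos hj, if_neg h2, if_pos hj, if_neg h2, if_neg (fun h => h2 h.2)]
      push_cast
      ring
  · rw [if_neg hj, if_neg hj, if_neg (fun h => hj h.1)]
    push_cast
    ring

private theorem B4_eq (l : ℕ) (w : {k // k ∈ D.I} × Stp d) (t t' : ∀ j : Fin d, Fin (D.ncl l w.1.1 w.2 j)) (u u' : BxV d l)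
    (j : Fin d) (hv : ((D.cps l ⟨w, t⟩ u) j).val = ((D.cps l ⟨w, t'⟩ u') j).val) : t j = t' j ∧ u j = u' j := by
  have h1 := B4_val D l ⟨w, t⟩ u j
  have h2 := B4_val D l ⟨w, t'⟩ u' j
  rw [hv, h2] at h1
  have h3 : ((l + 2) * (t' j).val + (u' j).val : ℕ) = (l + 2) * (t j).val + (u j).val := by
    rcases B4_e_cases D w j with he | he <;> simp only [he] at h1 <;> omega
  have hu := (u j).isLt
  have hu' := (u' j).isLt
  have h4 : (t' j).val = (t j).val := by
    have e1 : ((l + 2) * (t' j).val + (u' j).val) / (l + 2) = (t' j).val := by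
      rw [Nat.mul_add_div (by omega), Nat.div_eq_of_lt (by omega), add_zero]
    have e2 : ((l + 2) * (t j).val + (u j).val) / (l + 2) = (t j).val := by
      rw [Nat.mul_add_div (by omega), Nat.div_eq_of_lt (by omega), add_zero]
    rw [← e1, ← e2, h3]
  rw [h4] at h3
  exact ⟨Fin.ext h4.symm, Fin.ext (by omega)⟩

private theorem B4_step (l : ℕ) (z : D.Cix l) (u u' : BxV d l) (j : Fin d) :
    ((((D.cps l z u) j).val + 1 = ((D.cps l z u') j).val) ∨ (((D.cps l z u') j).val + 1 = ((D.cps l z u) j).val)) ↔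
      ((u j).val + 1 = (u' j).val ∨ (u' j).val + 1 = (u j).val) := by
  have h1 := B4_val D l z u j
  have h2 := B4_val D l z u' j
  rcases B4_e_cases D z.1 j with he | he <;> rw [he] at h1 h2 <;> push_cast at h1 h2 <;> omega

private theorem B4_par (l : ℕ) (hl : Even l) (z : D.Cix l) (u : BxV d l) (j : Fin d) :
    ((D.cps l z u) j).val % 2 = (u j).val % 2 := by
  have h1 := B4_val D l z u j
  obtain ⟨b, hb⟩ := D.ea z.1.1.1 z.1.1.2 j
  obtain ⟨c, hc⟩ := D.em z.1.1.1 z.1.1.2 j
  obtain ⟨e, he⟩ := hl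
  have h2 : ∀ x : ℕ, (l + 2) * x = 2 * ((e + 1) * x) := by
    intro x
    rw [he]; ring
  rw [h2] at h1
  have h3 : ∃ g : ℤ, B4_c D z.1 j = 2 * g := by
    unfold B4_c
    split_ifs
    · exact ⟨b + c - 1, by rw [hb, hc]; push_cast; ring⟩
    · exact ⟨b + 1, by rw [hb]; push_cast; ring⟩
    · exact ⟨b + h + 1, by rw [hb]; push_cast; ring⟩
  obtain ⟨g, hg⟩ := h3
  rw [hg] at h1
  generalize (e + 1) * (z.2 j).val = y at h1
  rcases B4_e_cases D z.1 j with he' | he' <;> rw [he'] at h1 <;> push_cast at h1 <;> omega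

theorem kap_cells (l : ℕ) (hl : Even l) : Cells d l D.GrL (fun p => bev (D.il false p).1) (D.kap l) := by
  have heq : ∀ (z : D.Cix l) (u u' : BxV d l) (j : Fin d), D.cps l z u j = D.cps l z u' j ↔ u j = u' j := by
    intro z u u' j
    constructor
    · intro h
      exact (B4_eq D l z.1 z.2 z.2 u u' j (congrArg Fin.val h)).2
    · intro h
      have h1 := B4_val D l z u j
      have h2 := B4_val D l z u' j
      rw [h] at h1
      refine Fin.ext ?_
      have h3 := h1.trans h2.symm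
      exact_mod_cast h3
  refine ⟨?_, ?_, ?_, ?_⟩
  · rintro ⟨w, t⟩ ⟨w', t'⟩ u u' h
    have h1 : ((w, D.cps l ⟨w, t⟩ u) : ({k // k ∈ D.I} × Stp d) × BxV d N) = (w', D.cps l ⟨w', t'⟩ u') :=
      congrArg Subtype.val h
    have hw : w = w' := congrArg Prod.fst h1
    subst hw
    have h2 : D.cps l ⟨w, t⟩ u = D.cps l ⟨w, t'⟩ u' := congrArg Prod.snd h1
    have h3 : ∀ j, t j = t' j ∧ u j = u' j := fun j => B4_eq D l w t t' u u' j (by rw [h2])
    have ht : t = t' := funext fun j => (h3 j).1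
    subst ht
    exact ⟨rfl, funext fun j => (h3 j).2⟩
  · intro z u u'
    constructor
    · rintro ⟨-, i, h1, h2⟩
      exact ⟨i, fun j hj => (heq z u u' j).1 (h1 j hj), (B4_step D l z u u' i).1 h2⟩
    · rintro ⟨i, h1, h2⟩
      exact ⟨rfl, i, fun j hj => (heq z u u' j).2 (h1 j hj), (B4_step D l z u u' i).2 h2⟩
  · rintro z u hu v ⟨hv1, i, h1, h2⟩
    have hui := hu i
    have hz := B4_val D l z u i
    -- the new coordinate
    have hex : ∃ y : Fin (l + 1), ((v.1.2 i).val : ℤ) =
        B4_c D z.1 i + B4_e D z.1 i * (((l + 2) * (z.2 i).val + y.val : ℕ) : ℤ) := by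
      change ((D.cps l z u i).val + 1 = (v.1.2 i).val ∨ (v.1.2 i).val + 1 = (D.cps l z u i).val) at h2
      rcases B4_e_cases D z.1 i with he | he
      · rw [he] at hz ⊢
        rcases h2 with h2 | h2
        · refine ⟨⟨(u i).val + 1, by omega⟩, ?_⟩
          push_cast at hz ⊢
          omega
        · refine ⟨⟨(u i).val - 1, by omega⟩, ?_⟩
          push_cast at hz ⊢
          omega
      · rw [he] at hz ⊢
        rcases h2 with h2 | h2
        · refine ⟨⟨(u i).val - 1, by omega⟩, ?_⟩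
          push_cast at hz ⊢
          omega
        · refine ⟨⟨(u i).val + 1, by omega⟩, ?_⟩
          push_cast at hz ⊢
          omega
    obtain ⟨y, hy⟩ := hex
    refine ⟨Function.update u i y, ?_⟩
    have hpos : v.1.2 = D.cps l z (Function.update u i y) := by
      funext j
      by_cases hj : j = i
      · subst hj
        have h3 := B4_val D l z (Function.update u j y) j
        rw [Function.update_self] at h3
        refine Fin.ext ?_
        have h4 := hy.trans h3.symm
        exact_mod_cast h4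
      · have h3 : D.cps l z u j = v.1.2 j := h1 j hj
        rw [← h3]
        exact (heq z u _ j).2 (by rw [Function.update_of_ne hj])
    refine Subtype.ext (Prod.ext ?_ hpos)
    exact hv1.symm
  · intro z u
    show Even (∑ i, (D.cps l z u i).val) ↔ Even (∑ i, (u i).val)
    rw [Nat.even_iff, Nat.even_iff, Finset.sum_nat_mod, Finset.sum_congr rfl fun i _ => B4_par D l hl z u i,
      ← Finset.sum_nat_mod]

theorem kap_lv (l : ℕ) (z : D.Cix l) (u : BxV d l) : 1 ≤ D.lv (D.kap l z u) ∧ D.lv (D.kap l z u) + 2 ≤ h := by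
  have hm := D.big z.1.1.1 z.1.1.2 z.1.2.1
  have hu := (u z.1.2.1).isLt
  have h1 := D.ncl_self (z.2 z.1.2.1).isLt rfl
  have h2 := D.cps_val l z u z.1.2.1
  rw [if_pos rfl] at h2
  obtain ⟨y, hy⟩ : ∃ y : ℕ, (l + 2) * (z.2 z.1.2.1).val = y := ⟨_, rfl⟩
  rw [hy] at h1 h2
  have h3 : D.dp z.1.1.1 z.1.2 (D.cps l z u) = 2 + y + (u z.1.2.1).val := by
    unfold Bxs.dp
    rw [h2]
    split_ifs <;> omega
  have h4 : D.lv (D.kap l z u) = 1 + y + (u z.1.2.1).val := by
    show (D.dp z.1.1.1 z.1.2 (D.cps l z u) - 1).toNat = _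
    rw [h3]
    omega
  omega

end Pool.Agent.LC
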