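import Pool.Agent.Lib_MP_2c424f_lc6a.Defs2
import Pool.Agent.Lib_MP_2c424f_lc6.C10

/-!
# LC6a B5: the cells cover almost all of the layer

`card Cix = ∑_{k ∈ I} ∑_σ ∏_j ncl l k σ j`.  Let `x = d^(C+2)`, `x ≥ 121`.  `kk_bound` (`lc6.C10`): `kk l h * (l+1) ≥ h (1 - 3/x)`, and with `n = m j - 4 h - 3` (`l x ≤ h ≤ n`, `h x ≤ m j`):
`kk l n * (l+1) ≥ n (1 - 3/x) ≥ (m j + 1) (1 - 8/x) (1 - 3/x)` (`4 h + 4 ≤ 8 h ≤ 8 (m j + 1)/x`).  So for every `(k, σ)`: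
`(∏_j ncl) (l+1)^d ≥ h ∏_{j ≠ σ.1} (m j + 1) * (1 - 11/x)^d` and `(1 - 11/x)^d ≥ 1 - 11 d/x ≥ 1 - 1/d^C` (`one_add_mul_le_pow`; `d ≥ 11`).  `∑_σ = 2 ∑_i`.
-/

set_option autoImplicit false

open Finset Filter

namespace Pool.Agent.LC

open Pool.Agent.LO Pool.Agent.LIN Pool.Agent.THR Pool.Agent.COR

variable {d N h : ℕ} {ι : Type} (D : Bxs d N h ι)

private theorem fac_B5 (l n M : ℕ) (x : ℝ) (hx : 121 ≤ x) (hl6 : 6 ≤ l) (hxl : x ≤ l) (hh : (l : ℝ) * x ≤ h)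
    (hM : (h : ℝ) * x ≤ M) (h8 : 8 * h + 8 ≤ M) (hn : n = M - 4 * h - 3) :
    ((M : ℝ) + 1) * (1 - 11 / x) ≤ kk l n * ((l : ℝ) + 1) := by
  have hx0 : (0 : ℝ) < x := by linarith
  have hl' : (6 : ℝ) ≤ l := by exact_mod_cast hl6
  have hh1 : (1 : ℝ) ≤ h := by nlinarith
  have hnM : n + 4 * h + 3 = M := by omega
  have hnM' : (n : ℝ) + 4 * h + 3 = M := by exact_mod_cast hnM
  have hhn : (h : ℝ) ≤ n := by
    have h1 : h ≤ n := by omega
    exact_mod_cast h1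
  have hk := kk_bound l n x (by linarith) hl6 hxl (hh.trans hhn)
  refine le_trans ?_ hk
  have h1 : ((M : ℝ) + 1) * (1 - 8 / x) ≤ n := by
    have h2 : 8 * (h : ℝ) ≤ ((M : ℝ) + 1) * (8 / x) := by
      rw [mul_div_assoc', le_div_iff₀ hx0]
      nlinarith
    nlinarith
  have h3 : 3 / x ≤ 1 := by
    rw [div_le_one hx0]
    linarith
  have hM0 : (0 : ℝ) ≤ (M : ℝ) + 1 := by positivity
  have h4 : 1 - 11 / x ≤ (1 - 8 / x) * (1 - 3 / x) := by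
    have h5 : 11 / x = 8 / x + 3 / x := by ring
    have h6 : 0 ≤ 8 / x * (3 / x) := by positivity
    nlinarith
  calc ((M : ℝ) + 1) * (1 - 11 / x) ≤ ((M : ℝ) + 1) * ((1 - 8 / x) * (1 - 3 / x)) := mul_le_mul_of_nonneg_left h4 hM0
    _ = (((M : ℝ) + 1) * (1 - 8 / x)) * (1 - 3 / x) := by ring
    _ ≤ n * (1 - 3 / x) := mul_le_mul_of_nonneg_right h1 (by linarith)

private theorem one_B5 (C l : ℕ) (hd : 11 ≤ d) (hl : (d : ℝ) ^ (C + 2) ≤ l) (hl6 : 6 ≤ l) (hh : (l : ℝ) * (d : ℝ) ^ (C + 2) ≤ h)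
    (hm : ∀ k ∈ D.I, ∀ i, (h : ℝ) * (d : ℝ) ^ (C + 2) ≤ D.m k i) (k : ι) (hk : k ∈ D.I) (i : Fin d) (b : Bool) :
    (h : ℝ) * (∏ i' ∈ univ.erase i, ((D.m k i' : ℝ) + 1)) * (1 - 1 / (d : ℝ) ^ C) ≤
      (∏ j, (D.ncl l k (i, b) j : ℝ)) * ((l : ℝ) + 1) ^ d := by
  have hd' : (11 : ℝ) ≤ d := by exact_mod_cast hd
  have hx2 : (d : ℝ) ^ 2 ≤ (d : ℝ) ^ (C + 2) := pow_le_pow_right₀ (by linarith) (by omega)
  set x : ℝ := (d : ℝ) ^ (C + 2) with hx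
  have hx121 : (121 : ℝ) ≤ x := by nlinarith
  have hx0 : (0 : ℝ) < x := by linarith
  have hy : 11 / x ≤ 1 := by
    rw [div_le_one hx0]
    linarith
  have hy0 : 0 ≤ 11 / x := by positivity
  have hl' : (6 : ℝ) ≤ l := by exact_mod_cast hl6
  have key : ∀ j : Fin d, (if j = i then (h : ℝ) else (D.m k j : ℝ) + 1) * (1 - 11 / x) ≤
      (D.ncl l k (i, b) j : ℝ) * ((l : ℝ) + 1) := by
    intro j
    unfold Bxs.ncl
    by_cases hj : j = i
    · rw [if_pos hj, if_pos hj]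
      refine le_trans ?_ (kk_bound l h x (by linarith) hl6 hl hh)
      refine mul_le_mul_of_nonneg_left ?_ (Nat.cast_nonneg h)
      have h1 : 3 / x ≤ 11 / x := div_le_div_of_nonneg_right (by norm_num) hx0.le
      linarith
    · rw [if_neg hj, if_neg hj]
      exact fac_B5 l _ (D.m k j) x hx121 hl6 hl hh (hm k hk j) (D.big k hk j) rfl
  have h1 : ∏ j : Fin d, ((if j = i then (h : ℝ) else (D.m k j : ℝ) + 1) * (1 - 11 / x)) ≤
      ∏ j, ((D.ncl l k (i, b) j : ℝ) * ((l : ℝ) + 1)) := by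
    refine prod_le_prod (fun j _ => mul_nonneg ?_ (by linarith)) fun j _ => key j
    split_ifs <;> positivity
  rw [prod_mul_distrib, prod_mul_distrib, prod_const, prod_const, card_univ, Fintype.card_fin] at h1
  have h2 : ∏ j : Fin d, (if j = i then (h : ℝ) else (D.m k j : ℝ) + 1) =
      (h : ℝ) * ∏ i' ∈ univ.erase i, ((D.m k i' : ℝ) + 1) := by
    rw [← mul_prod_erase univ _ (mem_univ i), if_pos rfl]
    congr 1
    refine prod_congr rfl fun j hj => ?_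
    rw [if_neg (ne_of_mem_erase hj)]
  rw [h2] at h1
  refine le_trans ?_ h1
  refine mul_le_mul_of_nonneg_left ?_ (mul_nonneg (Nat.cast_nonneg h) (prod_nonneg fun j _ => by positivity))
  have h3 := one_add_mul_le_pow (a := -(11 / x)) (by linarith) d
  have h4 : 1 - 1 / (d : ℝ) ^ C ≤ 1 + d * (-(11 / x)) := by
    have h5 : (d : ℝ) * (11 / x) ≤ 1 / (d : ℝ) ^ C := by
      rw [mul_div_assoc', div_le_div_iff₀ hx0 (by positivity), hx, pow_add]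
      have h6 : 0 < (d : ℝ) ^ C := by positivity
      have h7 : (d : ℝ) * 11 ≤ (d : ℝ) ^ 2 := by nlinarith
      have h8 := mul_le_mul_of_nonneg_right h7 h6.le
      linarith
    linarith
  refine h4.trans (h3.trans (le_of_eq ?_))
  congr 1

theorem cells_cover (C l : ℕ) (hd : 11 ≤ d) (hl : (d : ℝ) ^ (C + 2) ≤ l) (hl6 : 6 ≤ l) (hh : (l : ℝ) * (d : ℝ) ^ (C + 2) ≤ h)
    (hm : ∀ k ∈ D.I, ∀ i, (h : ℝ) * (d : ℝ) ^ (C + 2) ≤ D.m k i) :
    (h : ℝ) * D.YY * (1 - 1 / (d : ℝ) ^ C) ≤ Fintype.card (D.Cix l) * ((l : ℝ) + 1) ^ d := by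
  have hcard : (Fintype.card (D.Cix l) : ℝ) = ∑ k ∈ D.I, ∑ i : Fin d, ∑ b : Bool, ∏ j, (D.ncl l k (i, b) j : ℝ) := by
    rw [Fintype.card_sigma]
    push_cast
    rw [Fintype.sum_prod_type, ← sum_coe_sort D.I]
    refine sum_congr rfl fun k _ => ?_
    rw [← Fintype.sum_prod_type (f := fun σ : Fin d × Bool => ∏ j, (D.ncl l k σ j : ℝ))]
    refine sum_congr rfl fun σ _ => ?_
    rw [Fintype.card_pi]
    push_cast
    exact prod_congr rfl fun j _ => by rw [Fintype.card_fin]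
  rw [hcard, Bxs.YY, mul_sum, sum_mul, sum_mul]
  refine sum_le_sum fun k hk => ?_
  rw [mul_sum, mul_sum, sum_mul, sum_mul]
  refine sum_le_sum fun i _ => ?_
  rw [sum_mul]
  have h1 := one_B5 D C l hd hl hl6 hh hm k hk i
  rw [Fintype.sum_bool]
  have h2 := h1 true
  have h3 := h1 false
  linarith

end Pool.Agent.LC
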