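import Pool.Agent.Lib_MP_2c424f_lc6a.Defs2

/-!
# LC6a B6: size of the levels

For every `(k, σ)` a point of the level `l` is determined by its coordinates in the directions `j ≠ σ.1` (the coordinate `σ.1` is determined by `lv`), which are in `[a j, a j + m j]`:
at most `∏_{j ≠ σ.1} (m j + 1)` points.  `∑_σ = 2 ∑_i`.  (Inject `{p : lv p = l}` into `Σ (k, σ), ∏_{j : {j // j ≠ σ.1}} Fin (m k j + 1)`.)
-/

set_option autoImplicit false

open Finset Filter

namespace Pool.Agent.LC

open Pool.Agent.LO Pool.Agent.LIN Pool.Agent.THR Pool.Agent.COR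

variable {d N h : ℕ} {ι : Type} (D : Bxs d N h ι)

open scoped Classical in
private theorem B6_fib (l : ℕ) (z : {k // k ∈ D.I} × Stp d) :
    ((univ.filter fun p : D.Lam => D.lv p = l).filter fun p => p.1.1 = z).card ≤
      ∏ i' ∈ univ.erase z.2.1, (D.m z.1.1 i' + 1) := by
  obtain ⟨f, hf⟩ : ∃ f : D.Lam → Fin d → ℕ,
    f = fun p j => if j = z.2.1 then 0 else (p.1.2 j).val := ⟨_, rfl⟩
  obtain ⟨T, hT⟩ : ∃ T : Fin d → Finset ℕ, T = fun j => if j = z.2.1 then {0} else
    Finset.Icc (D.a z.1.1 j) (D.a z.1.1 j + D.m z.1.1 j) := ⟨_, rfl⟩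
  have h1 : (Fintype.piFinset T).card = ∏ i' ∈ univ.erase z.2.1, (D.m z.1.1 i' + 1) := by
    rw [Fintype.card_piFinset, ← Finset.mul_prod_erase univ _ (Finset.mem_univ z.2.1)]
    have h2 : (T z.2.1).card = 1 := by
      rw [hT]
      simp
    rw [h2, one_mul]
    apply Finset.prod_congr rfl
    intro j hj
    have hj' := (Finset.mem_erase.1 hj).1
    rw [hT]
    show (if j = z.2.1 then ({0} : Finset ℕ) else
      Finset.Icc (D.a z.1.1 j) (D.a z.1.1 j + D.m z.1.1 j)).card = _
    rw [if_neg hj', Nat.card_Icc]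
    omega
  rw [← h1]
  refine Finset.card_le_card_of_injOn f ?_ ?_
  · intro p hp
    rw [Finset.mem_coe, Finset.mem_filter, Finset.mem_filter] at hp
    obtain ⟨⟨-, hl⟩, hz⟩ := hp
    rw [Finset.mem_coe, Fintype.mem_piFinset]
    intro j
    rw [hT, hf]
    show (if j = z.2.1 then 0 else (p.1.2 j).val) ∈ (if j = z.2.1 then ({0} : Finset ℕ) else
      Finset.Icc (D.a z.1.1 j) (D.a z.1.1 j + D.m z.1.1 j))
    by_cases hj : j = z.2.1
    · rw [if_pos hj, if_pos hj, Finset.mem_singleton]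
    · rw [if_neg hj, if_neg hj, Finset.mem_Icc]
      have h3 := p.2.1.1
      rw [hz] at h3
      have h4 := h3 j hj
      unfold Bxs.okc at h4
      omega
  · intro p hp p' hp' he
    rw [Finset.mem_coe, Finset.mem_filter, Finset.mem_filter] at hp hp'
    obtain ⟨⟨-, hl⟩, hz⟩ := hp
    obtain ⟨⟨-, hl'⟩, hz'⟩ := hp'
    have hx : p.1.2 = p'.1.2 := by
      funext j
      apply Fin.ext
      by_cases hj : j = z.2.1
      · have h3 := p.2.2
        have h3' := p'.2.2
        have h5 : (D.dp p.1.1.1.1 p.1.1.2 p.1.2 - 1).toNat = l := hl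
        have h5' : (D.dp p'.1.1.1.1 p'.1.1.2 p'.1.2 - 1).toNat = l := hl'
        rw [hz] at h3 h5
        rw [hz'] at h3' h5'
        have h6 : D.dp z.1.1 z.2 p.1.2 = D.dp z.1.1 z.2 p'.1.2 := by omega
        unfold Bxs.dp at h6
        rw [hj]
        split_ifs at h6 <;> omega
      · have h3 := congrFun he j
        rw [hf] at h3
        have h4 : (if j = z.2.1 then 0 else (p.1.2 j).val) =
          (if j = z.2.1 then 0 else (p'.1.2 j).val) := h3
        rw [if_neg hj, if_neg hj] at h4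
        exact h4
    apply Subtype.ext
    exact Prod.ext (hz.trans hz'.symm) hx

open scoped Classical in
theorem level_card (l : ℕ) : ((univ.filter fun p : D.Lam => D.lv p = l).card : ℝ) ≤ D.YY := by
  have h1 : (univ.filter fun p : D.Lam => D.lv p = l).card =
      ∑ z : {k // k ∈ D.I} × Stp d,
        ((univ.filter fun p : D.Lam => D.lv p = l).filter fun p => p.1.1 = z).card :=
    Finset.card_eq_sum_card_fiberwise (fun p _ => Finset.mem_coe.2 (Finset.mem_univ p.1.1))
  have h2 : (univ.filter fun p : D.Lam => D.lv p = l).card ≤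
      ∑ z : {k // k ∈ D.I} × Stp d, ∏ i' ∈ univ.erase z.2.1, (D.m z.1.1 i' + 1) := by
    rw [h1]
    exact Finset.sum_le_sum fun z _ => B6_fib D l z
  have h3 : ((∑ z : {k // k ∈ D.I} × Stp d, ∏ i' ∈ univ.erase z.2.1, (D.m z.1.1 i' + 1) : ℕ) : ℝ)
      = D.YY := by
    unfold Bxs.YY
    rw [Fintype.sum_prod_type, Nat.cast_sum, ← Finset.sum_coe_sort D.I]
    refine Finset.sum_congr rfl fun k _ => ?_
    rw [Fintype.sum_prod_type, Nat.cast_sum, Finset.mul_sum]
    refine Finset.sum_congr rfl fun i _ => ?_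
    rw [Fintype.sum_bool, ← two_mul, Nat.cast_mul, Nat.cast_prod]
    push_cast
    rfl
  calc ((univ.filter fun p : D.Lam => D.lv p = l).card : ℝ)
      ≤ ((∑ z : {k // k ∈ D.I} × Stp d, ∏ i' ∈ univ.erase z.2.1, (D.m z.1.1 i' + 1) : ℕ) : ℝ) := by
        exact_mod_cast h2
    _ = D.YY := h3

end Pool.Agent.LC
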