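import Pool.Agent.Lib_MP_2c424f_lc6a.Defs2

/-!
# LC6a B7: few removed sites

`{x : RR x}` is contained in the union over `k ∈ I` and the ordered pairs `i ≠ i'` of the set of the `x` with `x j ∈ [a j, a j + m j]` for `j ≠ i, i'` and
(`x i ∈ {a, a + m}` and `x i'` in one of two intervals with `2 h + 2` points) or (`x i` in one of two intervals with `2 h + 1` points and `x i'` one of two values):
at most `(2 (4 h + 4) + 2 (4 h + 2)) ∏_{j ≠ i, i'} (m j + 1) ≤ 28 h ∏_{j ≠ i, i'} (m j + 1)` (`1 ≤ h`).  Since `h x ≤ m i' + 1`: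
`h ∏_{j ≠ i, i'} (m j + 1) ≤ (1/x) ∏_{j ≠ i} (m j + 1)`.  Sum over `i'` (at most `d` values), `i`, `k`: `28 (d/x) ∑_k ∑_i ∏_{j ≠ i} (m j + 1) = 14 (d/x) YY`.
-/

set_option autoImplicit false

open Finset Filter

namespace Pool.Agent.LC

open Pool.Agent.LO Pool.Agent.LIN Pool.Agent.THR Pool.Agent.COR

variable {d N h : ℕ} {ι : Type} (D : Bxs d N h ι)

private theorem B7_ival (N lo hi : ℕ) :
    (univ.filter fun t : Fin (N + 1) => lo ≤ t.val ∧ t.val ≤ hi).card ≤ hi + 1 - lo := by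
  rw [← Nat.card_Icc]
  refine Finset.card_le_card_of_injOn (fun t => t.val) ?_ ?_
  · intro t ht
    have h := (Finset.mem_filter.1 ht).2
    exact Finset.mem_coe.2 (Finset.mem_Icc.2 h)
  · intro t _ t' _ h
    exact Fin.ext h

private theorem B7_two (N lo1 hi1 lo2 hi2 : ℕ) (P : Fin (N + 1) → Prop) [DecidablePred P]
    (h : ∀ t, P t → (lo1 ≤ t.val ∧ t.val ≤ hi1) ∨ (lo2 ≤ t.val ∧ t.val ≤ hi2)) :
    (univ.filter P).card ≤ (hi1 + 1 - lo1) + (hi2 + 1 - lo2) := by
  have hsub : univ.filter P ⊆ (univ.filter fun t : Fin (N + 1) => lo1 ≤ t.val ∧ t.val ≤ hi1) ∪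
      (univ.filter fun t : Fin (N + 1) => lo2 ≤ t.val ∧ t.val ≤ hi2) := by
    intro t ht
    rw [Finset.mem_union, Finset.mem_filter, Finset.mem_filter]
    rcases h t (Finset.mem_filter.1 ht).2 with h1 | h1
    · exact Or.inl ⟨mem_univ _, h1⟩
    · exact Or.inr ⟨mem_univ _, h1⟩
  exact (Finset.card_le_card hsub).trans ((Finset.card_union_le _ _).trans
    (Nat.add_le_add (B7_ival N lo1 hi1) (B7_ival N lo2 hi2)))

private theorem B7_pi {d N : ℕ} (i i' : Fin d) (hne : i ≠ i') (A B : Finset (Fin (N + 1)))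
    (C : Fin d → Finset (Fin (N + 1))) (S : BxV d N → Prop) [DecidablePred S]
    (hS : ∀ v, S v → v i ∈ A ∧ v i' ∈ B ∧ ∀ j, j ≠ i → j ≠ i' → v j ∈ C j) :
    (univ.filter S).card ≤ A.card * (B.card * ∏ j ∈ (univ.erase i).erase i', (C j).card) := by
  set F : Fin d → Finset (Fin (N + 1)) := fun j => if j = i then A else if j = i' then B else C j with hF
  have hsub : univ.filter S ⊆ Fintype.piFinset F := by
    intro v hv
    obtain ⟨h1, h2, h3⟩ := hS v (Finset.mem_filter.1 hv).2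
    rw [Fintype.mem_piFinset]
    intro j
    by_cases hj : j = i
    · rw [hF]
      simp only [if_pos hj]
      rw [hj]
      exact h1
    · by_cases hj' : j = i'
      · rw [hF]
        simp only [if_neg hj, if_pos hj']
        rw [hj']
        exact h2
      · rw [hF]
        simp only [if_neg hj, if_neg hj']
        exact h3 j hj hj'
  refine (Finset.card_le_card hsub).trans (le_of_eq ?_)
  rw [Fintype.card_piFinset, ← Finset.mul_prod_erase univ (fun j => (F j).card) (Finset.mem_univ i),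
    ← Finset.mul_prod_erase (univ.erase i) (fun j => (F j).card) (Finset.mem_erase.2 ⟨hne.symm, Finset.mem_univ i'⟩)]
  have h1 : (F i).card = A.card := by
    rw [hF]
    simp only [if_true]
  have h2 : (F i').card = B.card := by
    rw [hF]
    simp only [if_neg hne.symm, if_true]
  rw [h1, h2]
  congr 2
  refine Finset.prod_congr rfl fun j hj => ?_
  have h3 := Finset.mem_erase.1 hj
  have h4 := Finset.mem_erase.1 h3.2
  rw [hF]
  simp only [if_neg h4.1, if_neg h3.1]

open scoped Classical in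
/-- the removed sites of one box at one pair of directions -/
private def B7_S (k : ι) (i i' : Fin d) (x : BxV d N) : Prop :=
  (∀ j, j ≠ i → j ≠ i' → D.a k j ≤ (x j).val ∧ (x j).val ≤ D.a k j + D.m k j) ∧
  ((((x i).val = D.a k i ∨ (x i).val = D.a k i + D.m k i) ∧ (D.a k i' ≤ (x i').val ∧ (x i').val ≤ D.a k i' + D.m k i') ∧
      ((x i').val ≤ D.a k i' + 2 * h + 1 ∨ D.a k i' + D.m k i' ≤ (x i').val + 2 * h + 1)) ∨
    (((D.a k i ≤ (x i).val + h ∧ (x i).val ≤ D.a k i + h) ∨
        (D.a k i + D.m k i ≤ (x i).val + h ∧ (x i).val ≤ D.a k i + D.m k i + h)) ∧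
      ((x i').val = D.a k i' + 2 * h + 1 ∨ (x i').val + 2 * h + 1 = D.a k i' + D.m k i')))

open scoped Classical in
private theorem B7_S_card (hh : 1 ≤ h) {k : ι} (hk : k ∈ D.I) (i i' : Fin d) (hne : i ≠ i') :
    (univ.filter fun v : BxV d N => B7_S D k i i' v).card ≤
      28 * h * ∏ j ∈ (univ.erase i).erase i', (D.m k j + 1) := by
  have hlo := D.lo k hk
  have hbig := D.big k hk
  set C : Fin d → Finset (Fin (N + 1)) := fun j =>
    univ.filter fun t : Fin (N + 1) => D.a k j ≤ t.val ∧ t.val ≤ D.a k j + D.m k j with hC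
  have hCc : ∀ j, (C j).card ≤ D.m k j + 1 := by
    intro j
    have h1 := B7_ival N (D.a k j) (D.a k j + D.m k j)
    rw [hC]
    refine h1.trans ?_
    omega
  have hCp : ∏ j ∈ (univ.erase i).erase i', (C j).card ≤ ∏ j ∈ (univ.erase i).erase i', (D.m k j + 1) :=
    Finset.prod_le_prod' fun j _ => hCc j
  have h1 : (univ.filter fun v : BxV d N =>
      (∀ j, j ≠ i → j ≠ i' → D.a k j ≤ (v j).val ∧ (v j).val ≤ D.a k j + D.m k j) ∧
      (((v i).val = D.a k i ∨ (v i).val = D.a k i + D.m k i) ∧ (D.a k i' ≤ (v i').val ∧ (v i').val ≤ D.a k i' + D.m k i') ∧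
      ((v i').val ≤ D.a k i' + 2 * h + 1 ∨ D.a k i' + D.m k i' ≤ (v i').val + 2 * h + 1))).card ≤
      2 * ((4 * h + 4) * ∏ j ∈ (univ.erase i).erase i', (D.m k j + 1)) := by
    refine (B7_pi i i' hne
      (univ.filter fun t : Fin (N + 1) => t.val = D.a k i ∨ t.val = D.a k i + D.m k i)
      (univ.filter fun t : Fin (N + 1) => (D.a k i' ≤ t.val ∧ t.val ≤ D.a k i' + D.m k i') ∧
        (t.val ≤ D.a k i' + 2 * h + 1 ∨ D.a k i' + D.m k i' ≤ t.val + 2 * h + 1)) C _ ?_).trans ?_
    · rintro v ⟨h1, h2, h3, h4⟩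
      refine ⟨Finset.mem_filter.2 ⟨mem_univ _, h2⟩, Finset.mem_filter.2 ⟨mem_univ _, h3, h4⟩, fun j hj hj' => ?_⟩
      rw [hC]
      exact Finset.mem_filter.2 ⟨mem_univ _, h1 j hj hj'⟩
    · have hA := B7_two N (D.a k i) (D.a k i) (D.a k i + D.m k i) (D.a k i + D.m k i)
        (fun t : Fin (N + 1) => t.val = D.a k i ∨ t.val = D.a k i + D.m k i) (by
          intro t ht
          rcases ht with ht | ht
          · left
            omega
          · right
            omega)
      have hB := B7_two N (D.a k i') (D.a k i' + 2 * h + 1) (D.a k i' + D.m k i' - (2 * h + 1)) (D.a k i' + D.m k i')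
        (fun t : Fin (N + 1) => (D.a k i' ≤ t.val ∧ t.val ≤ D.a k i' + D.m k i') ∧
        (t.val ≤ D.a k i' + 2 * h + 1 ∨ D.a k i' + D.m k i' ≤ t.val + 2 * h + 1)) (by
          intro t ht
          obtain ⟨ht1, ht2⟩ := ht
          rcases ht2 with ht | ht
          · left
            omega
          · right
            omega)
      have hbi := hbig i'
      have hli := hlo i'
      refine Nat.mul_le_mul (hA.trans (by omega)) (Nat.mul_le_mul (hB.trans (by omega)) hCp)
  have h2 : (univ.filter fun v : BxV d N =>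
      (∀ j, j ≠ i → j ≠ i' → D.a k j ≤ (v j).val ∧ (v j).val ≤ D.a k j + D.m k j) ∧
      (((D.a k i ≤ (v i).val + h ∧ (v i).val ≤ D.a k i + h) ∨
        (D.a k i + D.m k i ≤ (v i).val + h ∧ (v i).val ≤ D.a k i + D.m k i + h)) ∧
      ((v i').val = D.a k i' + 2 * h + 1 ∨ (v i').val + 2 * h + 1 = D.a k i' + D.m k i'))).card ≤
      (4 * h + 2) * (2 * ∏ j ∈ (univ.erase i).erase i', (D.m k j + 1)) := by
    refine (B7_pi i i' hne
      (univ.filter fun t : Fin (N + 1) => (D.a k i ≤ t.val + h ∧ t.val ≤ D.a k i + h) ∨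
        (D.a k i + D.m k i ≤ t.val + h ∧ t.val ≤ D.a k i + D.m k i + h))
      (univ.filter fun t : Fin (N + 1) => t.val = D.a k i' + 2 * h + 1 ∨ t.val + 2 * h + 1 = D.a k i' + D.m k i') C _ ?_).trans ?_
    · rintro v ⟨h1, h2, h3⟩
      refine ⟨Finset.mem_filter.2 ⟨mem_univ _, h2⟩, Finset.mem_filter.2 ⟨mem_univ _, h3⟩, fun j hj hj' => ?_⟩
      rw [hC]
      exact Finset.mem_filter.2 ⟨mem_univ _, h1 j hj hj'⟩
    · have hli := hlo i
      have hbi := hbig i
      have hA := B7_two N (D.a k i - h) (D.a k i + h) (D.a k i + D.m k i - h) (D.a k i + D.m k i + h)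
        (fun t : Fin (N + 1) => (D.a k i ≤ t.val + h ∧ t.val ≤ D.a k i + h) ∨
        (D.a k i + D.m k i ≤ t.val + h ∧ t.val ≤ D.a k i + D.m k i + h)) (by
          intro t ht
          rcases ht with ht | ht
          · left
            omega
          · right
            omega)
      have hB := B7_two N (D.a k i' + 2 * h + 1) (D.a k i' + 2 * h + 1) (D.a k i' + D.m k i' - (2 * h + 1))
        (D.a k i' + D.m k i' - (2 * h + 1))
        (fun t : Fin (N + 1) => t.val = D.a k i' + 2 * h + 1 ∨ t.val + 2 * h + 1 = D.a k i' + D.m k i') (by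
          intro t ht
          rcases ht with ht | ht
          · left
            omega
          · right
            omega)
      refine Nat.mul_le_mul (hA.trans (by omega)) (Nat.mul_le_mul (hB.trans (by omega)) hCp)
  have hsub : (univ.filter fun v : BxV d N => B7_S D k i i' v) ⊆ (univ.filter fun v : BxV d N =>
      (∀ j, j ≠ i → j ≠ i' → D.a k j ≤ (v j).val ∧ (v j).val ≤ D.a k j + D.m k j) ∧
      (((v i).val = D.a k i ∨ (v i).val = D.a k i + D.m k i) ∧ (D.a k i' ≤ (v i').val ∧ (v i').val ≤ D.a k i' + D.m k i') ∧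
      ((v i').val ≤ D.a k i' + 2 * h + 1 ∨ D.a k i' + D.m k i' ≤ (v i').val + 2 * h + 1))) ∪
      (univ.filter fun v : BxV d N =>
      (∀ j, j ≠ i → j ≠ i' → D.a k j ≤ (v j).val ∧ (v j).val ≤ D.a k j + D.m k j) ∧
      (((D.a k i ≤ (v i).val + h ∧ (v i).val ≤ D.a k i + h) ∨
        (D.a k i + D.m k i ≤ (v i).val + h ∧ (v i).val ≤ D.a k i + D.m k i + h)) ∧
      ((v i').val = D.a k i' + 2 * h + 1 ∨ (v i').val + 2 * h + 1 = D.a k i' + D.m k i'))) := by
    intro v hv
    obtain ⟨h3, h4⟩ := (Finset.mem_filter.1 hv).2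
    rw [Finset.mem_union, Finset.mem_filter, Finset.mem_filter]
    rcases h4 with h4 | h4
    · exact Or.inl ⟨mem_univ _, h3, h4⟩
    · exact Or.inr ⟨mem_univ _, h3, h4⟩
  refine (Finset.card_le_card hsub).trans ((Finset.card_union_le _ _).trans ((Nat.add_le_add h1 h2).trans ?_))
  set P := ∏ j ∈ (univ.erase i).erase i', (D.m k j + 1) with hP
  have h3 : 2 * ((4 * h + 4) * P) + (4 * h + 2) * (2 * P) = (16 * h + 12) * P := by ring
  rw [h3]
  exact Nat.mul_le_mul_right _ (by omega)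

open scoped Classical in
private theorem B7_S_real (hh : 1 ≤ h) (x : ℝ) (hx : 0 < x) {k : ι} (hk : k ∈ D.I)
    (hm : ∀ i, (h : ℝ) * x ≤ D.m k i) (i i' : Fin d) (hne : i ≠ i') :
    ((univ.filter fun v : BxV d N => B7_S D k i i' v).card : ℝ) ≤
      28 / x * ∏ j ∈ univ.erase i, ((D.m k j : ℝ) + 1) := by
  have h1 : ((univ.filter fun v : BxV d N => B7_S D k i i' v).card : ℝ) ≤
      28 * h * ∏ j ∈ (univ.erase i).erase i', ((D.m k j : ℝ) + 1) := by
    have h2 := B7_S_card D hh hk i i' hne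
    have h3 : (((univ.filter fun v : BxV d N => B7_S D k i i' v).card : ℕ) : ℝ) ≤
        ((28 * h * ∏ j ∈ (univ.erase i).erase i', (D.m k j + 1) : ℕ) : ℝ) := by exact_mod_cast h2
    push_cast at h3
    exact h3
  refine h1.trans ?_
  rw [← Finset.mul_prod_erase (univ.erase i) (fun j => (D.m k j : ℝ) + 1) (Finset.mem_erase.2 ⟨hne.symm, Finset.mem_univ i'⟩)]
  have hP : 0 ≤ ∏ j ∈ (univ.erase i).erase i', ((D.m k j : ℝ) + 1) :=
    Finset.prod_nonneg fun j _ => by positivity
  have h4 := hm i'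
  rw [← mul_assoc]
  refine mul_le_mul_of_nonneg_right ?_ hP
  rw [div_mul_eq_mul_div, le_div_iff₀ hx]
  nlinarith

open scoped Classical in
theorem RR_card (hh : 1 ≤ h) (x : ℝ) (hx : 0 < x) (hm : ∀ k ∈ D.I, ∀ i, (h : ℝ) * x ≤ D.m k i) :
    ((univ.filter fun v : BxV d N => D.RR v).card : ℝ) ≤ 14 * d / x * D.YY := by
  have hsub : (univ.filter fun v : BxV d N => D.RR v) ⊆
      D.I.biUnion fun k => (univ : Finset (Fin d)).biUnion fun i => (univ.erase i).biUnion fun i' =>
        univ.filter fun v : BxV d N => B7_S D k i i' v := by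
    intro v hv
    obtain ⟨k, hk, i, i', hne, h1⟩ := (Finset.mem_filter.1 hv).2
    rw [Finset.mem_biUnion]
    refine ⟨k, hk, ?_⟩
    rw [Finset.mem_biUnion]
    refine ⟨i, mem_univ _, ?_⟩
    rw [Finset.mem_biUnion]
    exact ⟨i', Finset.mem_erase.2 ⟨hne.symm, mem_univ _⟩, Finset.mem_filter.2 ⟨mem_univ _, h1⟩⟩
  have h1 : ((univ.filter fun v : BxV d N => D.RR v).card : ℝ) ≤ ∑ k ∈ D.I, ∑ i : Fin d, ∑ i' ∈ univ.erase i,
      ((univ.filter fun v : BxV d N => B7_S D k i i' v).card : ℝ) := by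
    have h2 : (univ.filter fun v : BxV d N => D.RR v).card ≤ ∑ k ∈ D.I, ∑ i : Fin d, ∑ i' ∈ univ.erase i,
        (univ.filter fun v : BxV d N => B7_S D k i i' v).card :=
      (Finset.card_le_card hsub).trans (Finset.card_biUnion_le.trans (Finset.sum_le_sum fun k _ =>
        Finset.card_biUnion_le.trans (Finset.sum_le_sum fun i _ => Finset.card_biUnion_le)))
    exact_mod_cast h2
  refine h1.trans ?_
  have h2 : ∀ k ∈ D.I, ∑ i : Fin d, ∑ i' ∈ univ.erase i, ((univ.filter fun v : BxV d N => B7_S D k i i' v).card : ℝ) ≤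
      14 * d / x * (2 * ∑ i, ∏ i' ∈ univ.erase i, ((D.m k i' : ℝ) + 1)) := by
    intro k hk
    have h3 : ∀ i : Fin d, ∑ i' ∈ univ.erase i, ((univ.filter fun v : BxV d N => B7_S D k i i' v).card : ℝ) ≤
        d * (28 / x * ∏ j ∈ univ.erase i, ((D.m k j : ℝ) + 1)) := by
      intro i
      have h0 : 0 ≤ 28 / x * ∏ j ∈ univ.erase i, ((D.m k j : ℝ) + 1) :=
        mul_nonneg (by positivity) (Finset.prod_nonneg fun j _ => by positivity)
      calc ∑ i' ∈ univ.erase i, ((univ.filter fun v : BxV d N => B7_S D k i i' v).card : ℝ)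
          ≤ ∑ _i' ∈ univ.erase i, (28 / x * ∏ j ∈ univ.erase i, ((D.m k j : ℝ) + 1)) :=
            Finset.sum_le_sum fun i' hi' => B7_S_real D hh x hx hk (hm k hk) i i' (Finset.mem_erase.1 hi').1.symm
        _ = ((univ.erase i).card : ℝ) * (28 / x * ∏ j ∈ univ.erase i, ((D.m k j : ℝ) + 1)) := by
            rw [Finset.sum_const, nsmul_eq_mul]
        _ ≤ d * (28 / x * ∏ j ∈ univ.erase i, ((D.m k j : ℝ) + 1)) := by
            refine mul_le_mul_of_nonneg_right ?_ h0
            have h4 : (univ.erase i).card ≤ d := by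
              refine (Finset.card_le_univ _).trans ?_
              rw [Fintype.card_fin]
            exact_mod_cast h4
    calc ∑ i : Fin d, ∑ i' ∈ univ.erase i, ((univ.filter fun v : BxV d N => B7_S D k i i' v).card : ℝ)
        ≤ ∑ i : Fin d, d * (28 / x * ∏ j ∈ univ.erase i, ((D.m k j : ℝ) + 1)) := Finset.sum_le_sum fun i _ => h3 i
      _ = 14 * d / x * (2 * ∑ i, ∏ i' ∈ univ.erase i, ((D.m k i' : ℝ) + 1)) := by
          rw [Finset.mul_sum, Finset.mul_sum]
          refine Finset.sum_congr rfl fun i _ => ?_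
          ring
  unfold Bxs.YY
  rw [Finset.mul_sum]
  exact Finset.sum_le_sum h2

end Pool.Agent.LC
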