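import Pool.Agent.Lib_MP_2c424f_lc6a.A2
import Pool.Agent.Lib_MP_2c424f_lc2.A11

/-!
# LC6a B8: factorisation over the boxes

`prod_cells` (`lc2.A11`) with `X = TX (bG d N) In Su`, `S = I`, `W k = D2V (DV (m k)) (Dgl (m k))`, `H k = D2s (DG (m k)) (Dgl (m k))`, `κ k p = (plc (a k) (m k) p.1.1, p.1.2)`,
`P k F = E k (F (·, false))`; then `cG_D2s`.
* `plc_val`: `a i + x i ≤ N` (`hi`).  Every point `x` of the closed box `k` is `plc` of the point with the coordinates `x i - a i`.  Surface iff `Dgl`.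
* `hdis`: `sep`.  `hadj`: `bG` and `DG = prG .. lnG false` have the same edges; the conditions of `TX` and `D2`: both glued: equal sheets (`false`); one glued: the glued point is in the sheet `false`, the other one is in `In`;
  none: equal sheets.
* `hcl`: a neighbour `(y, c)` of `(plc u, b)`: `u` not on the surface: `y` is in the closed box `k` (coordinates strictly inside); if `y` is on the surface (of a box, which is `k` by `sep`) then `c = false`, else `c = b`.
  `u` on the surface, so `b = false`: `y` not in `In` is impossible (`TX` says `b = true`); `y` in the box `k'`: `k' = k` by `sep` (distance `1`); `y` on the surface: `c = b = false`.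
-/

set_option autoImplicit false

open Finset Filter

namespace Pool.Agent.LC

open Pool.Agent.LO Pool.Agent.LIN Pool.Agent.THR Pool.Agent.COR

variable {d N h : ℕ} {ι : Type} (D : Bxs d N h ι)

private theorem B8_val {k : ι} (hk : k ∈ D.I) (u : DV (D.m k)) (i : Fin d) :
    ((plc (D.a k) (D.m k) u : BxV d N) i).val = D.a k i + (u i).val := by
  have h1 := D.hi k hk i
  have h2 := (u i).isLt
  unfold plc
  rw [Fin.val_ofNat]
  exact Nat.mod_eq_of_lt (by omega)

theorem plc_val {k : ι} (hk : k ∈ D.I) (u : DV (D.m k)) (i : Fin d) :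
    ((plc (D.a k) (D.m k) u : BxV d N) i).val = D.a k i + (u i).val :=
  B8_val D hk u i

private theorem B8_in {k : ι} (hk : k ∈ D.I) (u : DV (D.m k)) : D.inD k (plc (D.a k) (D.m k) u : BxV d N) := by
  intro i
  have h1 := B8_val D hk u i
  have h2 := (u i).isLt
  constructor <;> omega

private theorem B8_ex {k : ι} (hk : k ∈ D.I) {x : BxV d N} (hx : D.inD k x) :
    ∃ u : DV (D.m k), (plc (D.a k) (D.m k) u : BxV d N) = x := by
  refine ⟨fun i => ⟨(x i).val - D.a k i, by have := hx i; omega⟩, ?_⟩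
  funext i
  apply Fin.ext
  rw [B8_val D hk]
  have := hx i
  simp only
  omega

private theorem B8_near {x y : BxV d N} (h : x = y ∨ (bG d N).Adj x y) (i : Fin d) :
    (x i).val ≤ (y i).val + 1 ∧ (y i).val ≤ (x i).val + 1 := by
  rcases h with h | ⟨j, h1, h2⟩
  · subst h
    omega
  · by_cases hij : i = j
    · subst hij
      omega
    · rw [h1 i hij]
      omega

private theorem B8_sep {k k' : ι} (hk : k ∈ D.I) (hk' : k' ∈ D.I) {x y : BxV d N} (hx : D.inD k x) (hy : D.inD k' y)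
    (h : x = y ∨ (bG d N).Adj x y) : k = k' := by
  by_contra hne
  obtain ⟨i, hi⟩ := D.sep k hk k' hk' hne
  have h1 := B8_near h i
  have h2 := hx i
  have h3 := hy i
  omega

private theorem B8_su {k : ι} (hk : k ∈ D.I) (u : DV (D.m k)) :
    D.Su (plc (D.a k) (D.m k) u : BxV d N) ↔ Dgl (D.m k) u := by
  constructor
  · rintro ⟨k', hk', h1, i, hi⟩
    have e := B8_sep D hk hk' (B8_in D hk u) h1 (Or.inl rfl)
    subst e
    have h2 := B8_val D hk u i
    exact ⟨i, by omega⟩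
  · rintro ⟨i, hi⟩
    have h2 := B8_val D hk u i
    exact ⟨k, hk, B8_in D hk u, i, by omega⟩

private theorem B8_adj {k : ι} (hk : k ∈ D.I) (u u' : DV (D.m k)) :
    (bG d N).Adj (plc (D.a k) (D.m k) u) (plc (D.a k) (D.m k) u') ↔ (DG (D.m k)).Adj u u' := by
  have hv := B8_val D hk u
  have hv' := B8_val D hk u'
  constructor
  · rintro ⟨i, h1, h2⟩
    refine ⟨i, ?_, ?_, ?_⟩
    · intro j hj
      have h3 := congrArg Fin.val (h1 j hj)
      rw [hv, hv'] at h3
      exact Fin.ext (by omega)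
    · intro e
      have h3 := congrArg Fin.val e
      rw [hv, hv'] at h2
      omega
    · rw [hv, hv'] at h2
      rcases h2 with h2 | h2
      · exact Or.inl (by omega)
      · exact Or.inr (Or.inl (by omega))
  · rintro ⟨i, h1, h2, h3⟩
    refine ⟨i, ?_, ?_⟩
    · intro j hj
      apply Fin.ext
      rw [hv, hv', h1 j hj]
    · rw [hv, hv']
      rcases h3 with h3 | h3 | ⟨h3, _⟩
      · exact Or.inl (by omega)
      · exact Or.inr (by omega)
      · exact absurd h3 (by simp)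

private theorem B8_TX {k : ι} (hk : k ∈ D.I) (u u' : D2V (DV (D.m k)) (Dgl (D.m k))) :
    (TX (bG d N) D.In D.Su).Adj (plc (D.a k) (D.m k) u.1.1, u.1.2) (plc (D.a k) (D.m k) u'.1.1, u'.1.2) ↔
      (D2s (DG (D.m k)) (Dgl (D.m k))).Adj u u' := by
  obtain ⟨⟨u, b⟩, hu⟩ := u
  obtain ⟨⟨u', b'⟩, hu'⟩ := u'
  have hI : D.In (plc (D.a k) (D.m k) u : BxV d N) := ⟨k, hk, B8_in D hk u⟩
  have hI' : D.In (plc (D.a k) (D.m k) u' : BxV d N) := ⟨k, hk, B8_in D hk u'⟩
  change ((bG d N).Adj (plc (D.a k) (D.m k) u) (plc (D.a k) (D.m k) u') ∧ (((D.Su (plc (D.a k) (D.m k) u) ↔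
      D.Su (plc (D.a k) (D.m k) u')) ∧ b = b') ∨ (D.Su (plc (D.a k) (D.m k) u) ∧ ¬ D.Su (plc (D.a k) (D.m k) u') ∧
      (b = false ↔ D.In (plc (D.a k) (D.m k) u'))) ∨ (D.Su (plc (D.a k) (D.m k) u') ∧ ¬ D.Su (plc (D.a k) (D.m k) u) ∧
      (b' = false ↔ D.In (plc (D.a k) (D.m k) u))))) ↔
    ((DG (D.m k)).Adj u u' ∧ ¬ (b = true ∧ Dgl (D.m k) u) ∧ ¬ (b' = true ∧ Dgl (D.m k) u') ∧
      (b = b' ∨ Dgl (D.m k) u ∨ Dgl (D.m k) u'))
  rw [B8_adj D hk, B8_su D hk, B8_su D hk]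
  simp only at hu hu'
  cases b <;> cases b' <;> simp only [hI, hI', Bool.true_eq_false, Bool.false_eq_true] <;> tauto

private theorem B8_cl {k : ι} (hk : k ∈ D.I) (u : D2V (DV (D.m k)) (Dgl (D.m k))) (v : BxV d N × Bool)
    (h : (TX (bG d N) D.In D.Su).Adj (plc (D.a k) (D.m k) u.1.1, u.1.2) v) :
    ∃ u' : D2V (DV (D.m k)) (Dgl (D.m k)), v = (plc (D.a k) (D.m k) u'.1.1, u'.1.2) := by
  obtain ⟨⟨u, b⟩, hu⟩ := u
  obtain ⟨y, c⟩ := v
  have hI : D.In (plc (D.a k) (D.m k) u : BxV d N) := ⟨k, hk, B8_in D hk u⟩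
  have h : (bG d N).Adj (plc (D.a k) (D.m k) u) y ∧ (((D.Su (plc (D.a k) (D.m k) u) ↔
      D.Su y) ∧ b = c) ∨ (D.Su (plc (D.a k) (D.m k) u) ∧ ¬ D.Su y ∧
      (b = false ↔ D.In y)) ∨ (D.Su y ∧ ¬ D.Su (plc (D.a k) (D.m k) u) ∧
      (c = false ↔ D.In (plc (D.a k) (D.m k) u)))) := h
  obtain ⟨hA, h⟩ := h
  have key : D.inD k y → ¬ (c = true ∧ D.Su y) →
      ∃ u' : D2V (DV (D.m k)) (Dgl (D.m k)), (y, c) = (plc (D.a k) (D.m k) u'.1.1, u'.1.2) := by
    intro hy hc
    obtain ⟨y0, rfl⟩ := B8_ex D hk hy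
    rw [B8_su D hk] at hc
    exact ⟨⟨(y0, c), hc⟩, rfl⟩
  have hin : ∀ z : BxV d N, D.In z → (bG d N).Adj (plc (D.a k) (D.m k) u) z → D.inD k z := by
    rintro z ⟨k', hk', hz⟩ hz'
    have e := B8_sep D hk hk' (B8_in D hk u) hz (Or.inr hz')
    subst e
    exact hz
  have hSI : ∀ z : BxV d N, D.Su z → D.In z := fun z ⟨k', hk', hz⟩ => ⟨k', hk', hz.1⟩
  have hu' : ¬ (b = true ∧ D.Su (plc (D.a k) (D.m k) u : BxV d N)) := by
    rw [B8_su D hk]
    exact hu
  by_cases hs : D.Su (plc (D.a k) (D.m k) u : BxV d N)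
  · have hb : b = false := by
      cases b
      · rfl
      · exact absurd ⟨rfl, hs⟩ hu'
    subst hb
    rcases h with ⟨h1, h2⟩ | ⟨_, h1, h2⟩ | ⟨_, h1, _⟩
    · exact key (hin y (hSI y (h1.1 hs)) hA) (by
        rintro ⟨h3, _⟩
        rw [h3] at h2
        exact Bool.noConfusion h2)
    · exact key (hin y (h2.1 rfl) hA) fun h3 => h1 h3.2
    · exact absurd hs h1
  · have hy : D.inD k y := by
      have hs' : ¬ Dgl (D.m k) u := by
        rw [← B8_su D hk]
        exact hs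
      intro i
      have h1 := B8_near (Or.inr hA) i
      have h2 := B8_val D hk u i
      have h3 := (u i).isLt
      have h4 : (u i).val ≠ 0 := fun e => hs' ⟨i, Or.inl e⟩
      have h5 : (u i).val ≠ D.m k i := fun e => hs' ⟨i, Or.inr e⟩
      omega
    refine key hy ?_
    rintro ⟨h1, h2⟩
    rcases h with ⟨h3, _⟩ | ⟨h3, _⟩ | ⟨_, _, h3⟩
    · exact hs (h3.2 h2)
    · exact hs h3
    · have h4 := h3.2 hI
      rw [h1] at h4
      exact Bool.noConfusion h4

private theorem B8_inj {k : ι} (hk : k ∈ D.I) : Function.Injective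
    fun u : D2V (DV (D.m k)) (Dgl (D.m k)) => ((plc (D.a k) (D.m k) u.1.1, u.1.2) : BxV d N × Bool) := by
  rintro ⟨⟨u, b⟩, hu⟩ ⟨⟨u', b'⟩, hu'⟩ h
  have h1 : (plc (D.a k) (D.m k) u : BxV d N) = plc (D.a k) (D.m k) u' := congrArg Prod.fst h
  have h2 : b = b' := congrArg Prod.snd h
  have h3 : u = u' := by
    funext i
    apply Fin.ext
    have h4 := congrArg Fin.val (congrFun h1 i)
    rw [B8_val D hk, B8_val D hk] at h4
    omega
  subst h2
  subst h3
  rfl

theorem fac_box {q : ℕ} (hq : 1 ≤ q) (E : ∀ k, (DV (D.m k) → Fin q) → Prop) :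
    cG (TX (bG d N) D.In D.Su) (fun F : BxV d N × Bool → Fin q => ∀ k ∈ D.I, E k fun u => F (plc (D.a k) (D.m k) u, false)) *
        ∏ k ∈ D.I, N2 (DG (D.m k)) (Dgl (D.m k)) (fun _ : DV (D.m k) → Fin q => True) =
      cG (TX (bG d N) D.In D.Su) (fun _ : BxV d N × Bool → Fin q => True) *
        ∏ k ∈ D.I, N2 (DG (D.m k)) (Dgl (D.m k)) (E k) := by
  classical
  have h := prod_cells (fun k => D2V (DV (D.m k)) (Dgl (D.m k))) hq (TX (bG d N) D.In D.Su) D.I
    (fun k => D2s (DG (D.m k)) (Dgl (D.m k)))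
    (fun k u => ((plc (D.a k) (D.m k) u.1.1, u.1.2) : BxV d N × Bool))
    (fun k hk => B8_inj D hk)
    (fun k hk k' hk' hne u u' e => hne (B8_sep D hk hk' (B8_in D hk u.1.1) (B8_in D hk' u'.1.1)
      (Or.inl (congrArg Prod.fst e))))
    (fun k hk u u' => B8_TX D hk u u')
    (fun k hk u v hv => B8_cl D hk u v hv)
    (fun k F => E k fun x => F ⟨(x, false), fun h => Bool.noConfusion h.1⟩)
  have h1 : ∀ k : ι, cG (D2s (DG (D.m k)) (Dgl (D.m k)))
      (fun F : D2V (DV (D.m k)) (Dgl (D.m k)) → Fin q => E k fun x => F ⟨(x, false), fun h => Bool.noConfusion h.1⟩) =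
      N2 (DG (D.m k)) (Dgl (D.m k)) (E k) := fun k => cG_D2s (DG (D.m k)) (Dgl (D.m k)) (E k)
  have h2 : ∀ k : ι, cG (D2s (DG (D.m k)) (Dgl (D.m k)))
      (fun _ : D2V (DV (D.m k)) (Dgl (D.m k)) → Fin q => True) =
      N2 (DG (D.m k)) (Dgl (D.m k)) (fun _ : DV (D.m k) → Fin q => True) :=
    fun k => cG_D2s (DG (D.m k)) (Dgl (D.m k)) fun _ => True
  simp only [h1, h2] at h
  exact h

end Pool.Agent.LC
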