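import Pool.Agent.Lib_MP_2c424f_lc6a.A3
import Pool.Agent.Lib_MP_2c424f_lc6a.A4
import Pool.Agent.Lib_MP_2c424f_lc6a.B3
import Pool.Agent.Lib_MP_2c424f_lc6a.B4
import Pool.Agent.Lib_MP_2c424f_lc6a.B5
import Pool.Agent.Lib_MP_2c424f_lc6a.B6
import Pool.Agent.Lib_MP_2c424f_lc6a.B7
import Pool.Agent.Lib_MP_2c424f_lc.PV

/-!
# LC6a B9: switching at the surfaces

Let `C₁, d₁` be the constants of `switch (K+1)`; `C = max (C₁ + 2) (K + 5)`, `d₀ ≥ d₁, 11`, ...  `l = 2^s0 ≥ d^C ≥ 6`, even; `h ≥ 2`.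
`cG TX ≤ cG XX` (`rmv_le`) `≤ exp (YY/d^(K+1)) cG XC` (`switch` with `XX_par, XC_par, XX_deg, XC_deg, lay, kap_cells, kap_lv, level_card, cells_cover`; `ι = Cix l`, `Λ = Lam`)
and `(1 - 1/q)^(4 d |RR|) cG XC ≤ cG (TC G)` (`rmv_add`, `Δ = 2 d`, `card_nb_box`), `(1 - 1/q)^n ≥ exp (-2 n/q) ≥ exp (-n)` (`q ≥ 2`: `q` is even and positive), `RR_card` with `x = d^C`:
`4 d |RR| ≤ 56 d² /d^(K+5) YY = 56/d^(K+3) YY ≤ YY/(2 d^K)`.
-/

set_option autoImplicit false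

open Finset Filter

namespace Pool.Agent.LC

open Pool.Agent.LO Pool.Agent.LIN Pool.Agent.THR Pool.Agent.COR

private theorem B9_nn {V : Type} [Fintype V] [DecidableEq V] {q : ℕ} (X : SimpleGraph V)
    (P : (V → Fin q) → Prop) : 0 ≤ cG X P := Nat.cast_nonneg _

private theorem B9_YY {d N h : ℕ} {ι : Type} (D : Bxs d N h ι) : 0 ≤ D.YY := by
  unfold Bxs.YY
  refine sum_nonneg (fun k _ => mul_nonneg zero_le_two (sum_nonneg (fun i _ => prod_nonneg (fun j _ => ?_))))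
  positivity

/-- `(1 - 1/q)^n ≥ exp (-n)` for `q ≥ 2` -/
private theorem B9_exp {q : ℕ} (hq : 2 ≤ q) (n : ℕ) : Real.exp (-(n : ℝ)) ≤ (1 - 1 / (q : ℝ)) ^ n := by
  have h1 : Real.exp (-(n : ℝ)) = (Real.exp (-1)) ^ n := by
    rw [← Real.exp_nat_mul]; congr 1; ring
  rw [h1]
  have hq' : (2 : ℝ) ≤ q := by exact_mod_cast hq
  have h2 : (1 : ℝ) / q ≤ 1 / 2 := one_div_le_one_div_of_le two_pos hq'
  have h3 : Real.exp (-1) ≤ 1 / 2 := by
    have h4 : (2 : ℝ) ≤ Real.exp 1 := by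
      have := Real.add_one_le_exp (1 : ℝ)
      linarith
    rw [Real.exp_neg, one_div]
    exact inv_anti₀ two_pos h4
  exact pow_le_pow_left₀ (Real.exp_pos _).le (by linarith) n

/-- the final estimate of the exponents -/
private theorem B9_num {d C K : ℕ} {Y r : ℝ} (hd : 11 ≤ d) (hC : K + 5 ≤ C) (hY : 0 ≤ Y)
    (hr : r ≤ 14 * d / (d : ℝ) ^ C * Y) :
    Y / (d : ℝ) ^ (K + 1) + 2 * (2 * d) * r ≤ Y / (d : ℝ) ^ K := by
  have hd' : (11 : ℝ) ≤ d := by exact_mod_cast hd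
  have hd0 : (0 : ℝ) < d := by linarith
  have hK : 0 < (d : ℝ) ^ K := by positivity
  have h1 : (d : ℝ) ^ (K + 5) ≤ (d : ℝ) ^ C := pow_le_pow_right₀ (by linarith) hC
  have h2 : 14 * (d : ℝ) / (d : ℝ) ^ C ≤ 14 * d / (d : ℝ) ^ (K + 5) :=
    div_le_div_of_nonneg_left (by positivity) (by positivity) h1
  have h3 : r ≤ 14 * d / (d : ℝ) ^ (K + 5) * Y := hr.trans (mul_le_mul_of_nonneg_right h2 hY)
  have h4 : 2 * (2 * (d : ℝ)) * r ≤ 2 * (2 * d) * (14 * d / (d : ℝ) ^ (K + 5) * Y) :=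
    mul_le_mul_of_nonneg_left h3 (by positivity)
  have h5 : 2 * (2 * (d : ℝ)) * (14 * d / (d : ℝ) ^ (K + 5) * Y) = 56 / (d : ℝ) ^ 3 * (Y / (d : ℝ) ^ K) := by
    rw [pow_add]
    field_simp
    ring
  have h6 : Y / (d : ℝ) ^ (K + 1) = 1 / d * (Y / (d : ℝ) ^ K) := by
    rw [pow_succ]
    field_simp
  have h7 : (56 : ℝ) / (d : ℝ) ^ 3 ≤ 1 / 2 := by
    rw [div_le_div_iff₀ (by positivity) two_pos]
    have : (11 : ℝ) ^ 3 ≤ (d : ℝ) ^ 3 := pow_le_pow_left₀ (by norm_num) hd' 3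
    linarith
  have h8 : (1 : ℝ) / d ≤ 1 / 2 := one_div_le_one_div_of_le two_pos (by linarith)
  have h9 : 0 ≤ Y / (d : ℝ) ^ K := by positivity
  rw [h5] at h4
  rw [h6]
  have h10 := mul_le_mul_of_nonneg_right h7 h9
  have h11 := mul_le_mul_of_nonneg_right h8 h9
  linarith

theorem sw_boxes (K : ℕ) : ∃ C d₀ : ℕ, ∀ d q : ℕ, d₀ ≤ d → Rg d q → ∀ s0 h : ℕ, (d : ℝ) ^ C ≤ 2 ^ s0 →
    (2 : ℝ) ^ s0 * (d : ℝ) ^ C ≤ h → (h : ℝ) ^ 2 ≤ 2 ^ d →
    ∀ (N : ℕ) (ι : Type) (D : Bxs d N h ι), (∀ k ∈ D.I, ∀ i, (h : ℝ) * (d : ℝ) ^ C ≤ D.m k i) →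
      cG (TX (bG d N) D.In D.Su) (fun _ : BxV d N × Bool → Fin q => True) ≤
        Real.exp (D.YY / (d : ℝ) ^ K) * cG (TC (bG d N)) (fun _ : BxV d N × Bool → Fin q => True) := by
  classical
  obtain ⟨C₁, d₁, hsw⟩ := switch (K + 1)
  refine ⟨max (C₁ + 2) (K + 5), max d₁ 11, ?_⟩
  set C : ℕ := max (C₁ + 2) (K + 5) with hC
  intro d q hd hR s0 h hs hh hh2 N ι D hm
  have hd1 : d₁ ≤ d := (le_max_left _ _).trans hd
  have hd11 : 11 ≤ d := (le_max_right _ _).trans hd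
  have hdr : (11 : ℝ) ≤ d := by exact_mod_cast hd11
  have hC1 : C₁ + 2 ≤ C := le_max_left _ _
  have hC2 : K + 5 ≤ C := le_max_right _ _
  have hx1 : (d : ℝ) ^ C₁ ≤ (d : ℝ) ^ C := pow_le_pow_right₀ (by linarith) (by omega)
  have hx2 : (d : ℝ) ^ (C₁ + 2) ≤ (d : ℝ) ^ C := pow_le_pow_right₀ (by linarith) hC1
  have hx3 : (d : ℝ) ^ 1 ≤ (d : ℝ) ^ C := pow_le_pow_right₀ (by linarith) (by omega)
  rw [pow_one] at hx3
  have hxp : 0 < (d : ℝ) ^ C := by positivity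
  have h2s : (0 : ℝ) < (2 : ℝ) ^ s0 := by positivity
  have hl11 : (11 : ℝ) ≤ (2 : ℝ) ^ s0 := by linarith
  have hh0 : (0 : ℝ) ≤ h := Nat.cast_nonneg h
  have hh11 : (11 : ℝ) ≤ h := by nlinarith
  have hh2' : 2 ≤ h := by
    have : (2 : ℝ) ≤ h := by linarith
    exact_mod_cast this
  have hl6 : 6 ≤ 2 ^ s0 := by
    have : (6 : ℝ) ≤ ((2 ^ s0 : ℕ) : ℝ) := by push_cast; linarith
    exact_mod_cast this
  have hs0 : s0 ≠ 0 := by
    rintro rfl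
    norm_num at hl6
  have hev : Even (2 ^ s0) := Nat.even_pow.2 ⟨even_two, hs0⟩
  have hq2 : 2 ≤ q := by
    obtain ⟨⟨r, hr⟩, -, h3⟩ := hR
    omega
  -- the switching theorem
  have e2 : cG D.XX (fun _ : BxV d N × Bool → Fin q => True) ≤
      Real.exp (D.YY / (d : ℝ) ^ (K + 1)) * cG D.XC (fun _ : BxV d N × Bool → Fin q => True) := by
    have hcov := cells_cover D C₁ (2 ^ s0) hd11 (by push_cast; linarith) hl6
      (by
        push_cast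
        exact (mul_le_mul_of_nonneg_left hx2 h2s.le).trans hh)
      (fun k hk i => (mul_le_mul_of_nonneg_left hx2 hh0).trans (hm k hk i))
    push_cast at hcov
    exact hsw d q hd1 hR s0 h (hx1.trans hs) ((mul_le_mul_of_nonneg_left hx1 h2s.le).trans hh) hh2
      (BxV d N × Bool) D.Lam (D.Cix (2 ^ s0)) D.XX D.XC (fun v => bev v.1) D.GrL D.lv D.il (D.kap (2 ^ s0))
      D.YY (XX_par D) (XC_par D) (XX_deg D) (XC_deg D) (lay D hh2') (kap_cells D (2 ^ s0) hev)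
      (fun j u => kap_lv D (2 ^ s0) j u) (fun l => level_card D l) hcov
  have e1 : cG (TX (bG d N) D.In D.Su) (fun _ : BxV d N × Bool → Fin q => True) ≤
      cG D.XX (fun _ : BxV d N × Bool → Fin q => True) := rmv_le _ _
  have e3 := rmv_add (q := q) (by omega) (bG d N) bev (bG_par d N) (2 * d) card_nb_box D.RR
  have e4 := RR_card D (by omega) ((d : ℝ) ^ C) hxp hm
  set n : ℕ := (univ.filter fun v : BxV d N => D.RR v).card with hn
  have e5 : Real.exp (-((2 * (2 * d) * n : ℕ) : ℝ)) * cG D.XC (fun _ : BxV d N × Bool → Fin q => True) ≤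
      cG (TC (bG d N)) (fun _ : BxV d N × Bool → Fin q => True) :=
    (mul_le_mul_of_nonneg_right (B9_exp hq2 _) (B9_nn _ _)).trans e3
  have e6 : cG D.XC (fun _ : BxV d N × Bool → Fin q => True) ≤
      Real.exp ((2 * (2 * d) * n : ℕ) : ℝ) * cG (TC (bG d N)) (fun _ : BxV d N × Bool → Fin q => True) := by
    have h1 := mul_le_mul_of_nonneg_left e5 (Real.exp_pos ((2 * (2 * d) * n : ℕ) : ℝ)).le
    rwa [← mul_assoc, ← Real.exp_add, add_neg_cancel, Real.exp_zero, one_mul] at h1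
  calc cG (TX (bG d N) D.In D.Su) (fun _ : BxV d N × Bool → Fin q => True)
      ≤ Real.exp (D.YY / (d : ℝ) ^ (K + 1)) * cG D.XC (fun _ : BxV d N × Bool → Fin q => True) := e1.trans e2
    _ ≤ Real.exp (D.YY / (d : ℝ) ^ (K + 1)) * (Real.exp ((2 * (2 * d) * n : ℕ) : ℝ) *
        cG (TC (bG d N)) (fun _ : BxV d N × Bool → Fin q => True)) :=
        mul_le_mul_of_nonneg_left e6 (Real.exp_pos _).le
    _ = Real.exp (D.YY / (d : ℝ) ^ (K + 1) + 2 * (2 * d) * n) *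
        cG (TC (bG d N)) (fun _ : BxV d N × Bool → Fin q => True) := by
        rw [← mul_assoc, ← Real.exp_add]
        push_cast
        rfl
    _ ≤ _ := mul_le_mul_of_nonneg_right (Real.exp_le_exp.2 (B9_num hd11 hC2 (B9_YY D) e4)) (B9_nn _ _)

end Pool.Agent.LC
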