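import Pool.Agent.Lib_MP_2c424f_lc2.WDefs

/-!
# MP_2c424f_pr, corners in the linear regime, part VI.A: definitions

Boxes `D = a + ∏ [0, m i]` inside the big box `{0..N}^d`.
-/

set_option autoImplicit false

open Finset Filter

namespace Pool.Agent.LC

open Pool.Agent.LO Pool.Agent.LIN Pool.Agent.THR Pool.Agent.COR

section box
variable {d : ℕ}

/-- vertices of the box with the side lengths `m` -/
abbrev DV (m : Fin d → ℕ) := ∀ i, Fin (m i + 1)

/-- its graph -/
def DG (m : Fin d → ℕ) : SimpleGraph (DV m) := prG (fun i => m i + 1) fun i => lnG false (m i + 1)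

/-- its boundary -/
def Dgl (m : Fin d → ℕ) (x : DV m) : Prop := ∃ i, (x i).val = 0 ∨ (x i).val = m i

/-- the position in the big box -/
def plc {N : ℕ} (a m : Fin d → ℕ) (x : DV m) : BxV d N := fun i => Fin.ofNat (N + 1) (a i + (x i).val)

end box

end Pool.Agent.LC
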