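import Pool.Agent.Lib_MP_2c424f_lc6a.Defs
import Pool.Agent.Lib_MP_2c424f_lc6.Defs

/-!
# MP_2c424f_pr, corners in the linear regime, part VI.A: the two sheets, the separated boxes and their layers

`TX G In Su`: two sheets over `G`; a surface point `(x, false)` sees the inside neighbours on both sheets, `(x, true)` sees the outside
neighbours on both sheets.  `TC G`: two disjoint copies.  `rmv X R`: the edges at `R` are removed.

`Bxs`: separated boxes.  `dp k σ x`: signed depth of `x` at the face `σ` of the box `k` (`σ.2 = false`: the face `x i = a i`,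
`σ.2 = true`: the face `x i = a i + m i`; positive inside).  `slb k σ`: the slab `|dp| ≤ h` over the points of the face at distance
`≥ 2 h + 2` from the other faces.  The layer `Lam` consists of the inner points `0 < dp ≤ h` of the slabs; `il false p = (p, true)`
(inside, sheet `true`), `il true p = (mirror image of p, false)` (outside, sheet `false`).
`RR`: removed sites (surface points near the codimension 2 skeleton, lateral rings of the slabs).
-/

set_option autoImplicit false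

open Finset Filter

namespace Pool.Agent.LC

open Pool.Agent.LO Pool.Agent.LIN Pool.Agent.THR Pool.Agent.COR

/-! ## Two sheets -/

section sheets
variable {V : Type}

/-- two sheets which are exchanged at the surface -/
def TX (G : SimpleGraph V) (In Su : V → Prop) : SimpleGraph (V × Bool) where
  Adj p p' := G.Adj p.1 p'.1 ∧ (((Su p.1 ↔ Su p'.1) ∧ p.2 = p'.2) ∨ (Su p.1 ∧ ¬ Su p'.1 ∧ (p.2 = false ↔ In p'.1)) ∨
    (Su p'.1 ∧ ¬ Su p.1 ∧ (p'.2 = false ↔ In p.1)))
  symm := ⟨fun p p' h => ⟨h.1.symm, by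
    rcases h.2 with h | h | h
    · exact Or.inl ⟨h.1.symm, h.2.symm⟩
    · exact Or.inr (Or.inr h)
    · exact Or.inr (Or.inl h)⟩⟩
  loopless := ⟨fun _ h => h.1.ne rfl⟩

/-- two copies -/
def TC (G : SimpleGraph V) : SimpleGraph (V × Bool) where
  Adj p p' := G.Adj p.1 p'.1 ∧ p.2 = p'.2
  symm := ⟨fun _ _ h => ⟨h.1.symm, h.2.symm⟩⟩
  loopless := ⟨fun _ h => h.1.ne rfl⟩

/-- the edges at `R` are removed -/
def rmv (X : SimpleGraph (V × Bool)) (R : V → Prop) : SimpleGraph (V × Bool) where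
  Adj p p' := X.Adj p p' ∧ ¬ R p.1 ∧ ¬ R p'.1
  symm := ⟨fun _ _ h => ⟨h.1.symm, h.2.2, h.2.1⟩⟩
  loopless := ⟨fun _ h => h.1.ne rfl⟩

/-- the points of two sheets glued along `gl`, without the isolated points -/
abbrev D2V (W : Type) (gl : W → Prop) := {p : W × Bool // ¬ (p.2 = true ∧ gl p.1)}

/-- two sheets glued along `gl`, without the isolated points -/
def D2s {W : Type} (B : SimpleGraph W) (gl : W → Prop) : SimpleGraph (D2V W gl) :=
  SimpleGraph.comap Subtype.val (D2 B gl)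

end sheets

/-! ## Separated boxes -/

/-- separated boxes in `{0..N}^d` -/
structure Bxs (d N h : ℕ) (ι : Type) where
  I : Finset ι
  a : ι → Fin d → ℕ
  m : ι → Fin d → ℕ
  ea : ∀ k ∈ I, ∀ i, Even (a k i)
  em : ∀ k ∈ I, ∀ i, Even (m k i)
  lo : ∀ k ∈ I, ∀ i, 2 * h + 2 ≤ a k i
  hi : ∀ k ∈ I, ∀ i, a k i + m k i + 2 * h + 2 ≤ N
  sep : ∀ k ∈ I, ∀ k' ∈ I, k ≠ k' → ∃ i, a k i + m k i + 2 * h + 4 ≤ a k' i ∨ a k' i + m k' i + 2 * h + 4 ≤ a k i
  big : ∀ k ∈ I, ∀ i, 8 * h + 8 ≤ m k i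

namespace Bxs

variable {d N h : ℕ} {ι : Type} (D : Bxs d N h ι)

/-- in the closed box `k` -/
def inD (k : ι) (x : BxV d N) : Prop := ∀ i, D.a k i ≤ (x i).val ∧ (x i).val ≤ D.a k i + D.m k i

/-- on the surface of the box `k` -/
def suD (k : ι) (x : BxV d N) : Prop := D.inD k x ∧ ∃ i, (x i).val = D.a k i ∨ (x i).val = D.a k i + D.m k i

/-- in a closed box -/
def In (x : BxV d N) : Prop := ∃ k ∈ D.I, D.inD k x

/-- on a surface -/
def Su (x : BxV d N) : Prop := ∃ k ∈ D.I, D.suD k x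

/-- the coordinate `i` is far from both faces -/
def okc (k : ι) (i : Fin d) (x : BxV d N) : Prop :=
  D.a k i + 2 * h + 2 ≤ (x i).val ∧ (x i).val + 2 * h + 2 ≤ D.a k i + D.m k i

/-- signed depth at the face `σ` -/
def dp (k : ι) (σ : Stp d) (x : BxV d N) : ℤ :=
  if σ.2 then ((D.a k σ.1 + D.m k σ.1 : ℕ) : ℤ) - ((x σ.1).val : ℤ) else ((x σ.1).val : ℤ) - (D.a k σ.1 : ℤ)

/-- the slab at the face `σ` -/
def slb (k : ι) (σ : Stp d) (x : BxV d N) : Prop :=
  (∀ i, i ≠ σ.1 → D.okc k i x) ∧ -(h : ℤ) ≤ D.dp k σ x ∧ D.dp k σ x ≤ h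

/-- removed sites -/
def RR (x : BxV d N) : Prop := ∃ k ∈ D.I, ∃ i i', i ≠ i' ∧
  (∀ j, j ≠ i → j ≠ i' → D.a k j ≤ (x j).val ∧ (x j).val ≤ D.a k j + D.m k j) ∧
  ((((x i).val = D.a k i ∨ (x i).val = D.a k i + D.m k i) ∧ (D.a k i' ≤ (x i').val ∧ (x i').val ≤ D.a k i' + D.m k i') ∧
      ((x i').val ≤ D.a k i' + 2 * h + 1 ∨ D.a k i' + D.m k i' ≤ (x i').val + 2 * h + 1)) ∨
    (((D.a k i ≤ (x i).val + h ∧ (x i).val ≤ D.a k i + h) ∨
        (D.a k i + D.m k i ≤ (x i).val + h ∧ (x i).val ≤ D.a k i + D.m k i + h)) ∧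
      ((x i').val = D.a k i' + 2 * h + 1 ∨ (x i').val + 2 * h + 1 = D.a k i' + D.m k i')))

/-- the points of the layer -/
abbrev Lam := {p : ({k // k ∈ D.I} × Stp d) × BxV d N // D.slb p.1.1.1 p.1.2 p.2 ∧ 0 < D.dp p.1.1.1 p.1.2 p.2}

/-- mirror image at the face `σ` -/
def mir (k : ι) (σ : Stp d) (x : BxV d N) : BxV d N := fun j =>
  if j = σ.1 then Fin.ofNat (N + 1) (if σ.2 then 2 * (D.a k j + D.m k j) - (x j).val else 2 * D.a k j - (x j).val)
  else x j

/-- the level of a point of the layer -/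
def lv (p : D.Lam) : ℕ := (D.dp p.1.1.1.1 p.1.1.2 p.1.2 - 1).toNat

/-- the two copies of the layer -/
def il (b : Bool) (p : D.Lam) : BxV d N × Bool :=
  if b then (D.mir p.1.1.1.1 p.1.1.2 p.1.2, false) else (p.1.2, true)

/-- the graph of the layer -/
def GrL : SimpleGraph D.Lam where
  Adj p p' := p.1.1 = p'.1.1 ∧ (bG d N).Adj p.1.2 p'.1.2
  symm := ⟨fun _ _ h => ⟨h.1.symm, h.2.symm⟩⟩
  loopless := ⟨fun _ h => h.2.ne rfl⟩

/-- the two sheets, removed sites isolated -/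
def XX : SimpleGraph (BxV d N × Bool) := rmv (TX (bG d N) D.In D.Su) D.RR

/-- two copies, removed sites isolated -/
def XC : SimpleGraph (BxV d N × Bool) := rmv (TC (bG d N)) D.RR

/-- number of surface points, without the parts which are counted twice -/
noncomputable def YY : ℝ := ∑ k ∈ D.I, 2 * ∑ i, ∏ i' ∈ univ.erase i, ((D.m k i' : ℝ) + 1)

/-! ## Cells -/

/-- number of the cells in the direction `j` -/
def ncl (l : ℕ) (k : ι) (σ : Stp d) (j : Fin d) : ℕ := if j = σ.1 then kk l h else kk l (D.m k j - 4 * h - 3)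

/-- index set of the cells -/
abbrev Cix (l : ℕ) := Σ z : {k // k ∈ D.I} × Stp d, ∀ j : Fin d, Fin (D.ncl l z.1.1 z.2 j)

/-- the positions of the points of the cells -/
def cps (l : ℕ) (z : D.Cix l) (u : BxV d l) : BxV d N := fun j =>
  Fin.ofNat (N + 1) (if j = z.1.2.1 then
      (if z.1.2.2 then D.a z.1.1.1 j + D.m z.1.1.1 j - (2 + (l + 2) * (z.2 j).val + (u j).val)
        else D.a z.1.1.1 j + (2 + (l + 2) * (z.2 j).val + (u j).val))
    else D.a z.1.1.1 j + 2 * h + 2 + (l + 2) * (z.2 j).val + (u j).val)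

theorem kk_lt {l n t : ℕ} (ht : t < kk l n) : (l + 2) * t + l + 6 ≤ n := by
  unfold kk at ht
  have h1 : (t + 1) * (l + 2) ≤ n - 4 := by
    calc (t + 1) * (l + 2) ≤ (n - 4) / (l + 2) * (l + 2) := Nat.mul_le_mul_right _ ht
      _ ≤ n - 4 := Nat.div_mul_le_self _ _
  have h2 : (t + 1) * (l + 2) = (l + 2) * t + l + 2 := by ring
  omega

theorem ncl_self {l t : ℕ} {k : ι} {σ : Stp d} {j : Fin d} (ht : t < D.ncl l k σ j) (hj : j = σ.1) :
    (l + 2) * t + l + 6 ≤ h := by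
  unfold ncl at ht
  rw [if_pos hj] at ht
  exact kk_lt ht

theorem ncl_ne {l t : ℕ} {k : ι} {σ : Stp d} {j : Fin d} (ht : t < D.ncl l k σ j) (hj : j ≠ σ.1) :
    (l + 2) * t + l + 6 ≤ D.m k j - 4 * h - 3 := by
  unfold ncl at ht
  rw [if_neg hj] at ht
  exact kk_lt ht

theorem cps_val (l : ℕ) (z : D.Cix l) (u : BxV d l) (j : Fin d) : ((D.cps l z u) j).val =
    (if j = z.1.2.1 then
      (if z.1.2.2 then D.a z.1.1.1 j + D.m z.1.1.1 j - (2 + (l + 2) * (z.2 j).val + (u j).val)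
        else D.a z.1.1.1 j + (2 + (l + 2) * (z.2 j).val + (u j).val))
    else D.a z.1.1.1 j + 2 * h + 2 + (l + 2) * (z.2 j).val + (u j).val) := by
  have hN := D.hi z.1.1.1 z.1.1.2 j
  have hm := D.big z.1.1.1 z.1.1.2 j
  have hu := (u j).isLt
  have ht := (z.2 j).isLt
  unfold cps
  rw [Fin.val_ofNat]
  refine Nat.mod_eq_of_lt ?_
  by_cases hj : j = z.1.2.1
  · rw [if_pos hj]
    have h1 := D.ncl_self ht hj
    split_ifs <;> omega
  · rw [if_neg hj]
    have h1 := D.ncl_ne ht hj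
    omega

theorem cps_ok (l : ℕ) (z : D.Cix l) (u : BxV d l) :
    D.slb z.1.1.1 z.1.2 (D.cps l z u) ∧ 0 < D.dp z.1.1.1 z.1.2 (D.cps l z u) := by
  have hdp : 0 < D.dp z.1.1.1 z.1.2 (D.cps l z u) ∧ D.dp z.1.1.1 z.1.2 (D.cps l z u) ≤ h := by
    have hN := D.hi z.1.1.1 z.1.1.2 z.1.2.1
    have hm := D.big z.1.1.1 z.1.1.2 z.1.2.1
    have hu := (u z.1.2.1).isLt
    have ht := (z.2 z.1.2.1).isLt
    have h1 := D.ncl_self ht rfl
    unfold dp
    rw [cps_val, if_pos rfl]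
    split_ifs <;> omega
  refine ⟨⟨?_, by omega, hdp.2⟩, hdp.1⟩
  intro i hi
  have hN := D.hi z.1.1.1 z.1.1.2 i
  have hm := D.big z.1.1.1 z.1.1.2 i
  have hu := (u i).isLt
  have ht := (z.2 i).isLt
  have h1 := D.ncl_ne ht hi
  unfold okc
  rw [cps_val, if_neg hi]
  constructor <;> omega

/-- the cells -/
def kap (l : ℕ) (z : D.Cix l) (u : BxV d l) : D.Lam := ⟨(z.1, D.cps l z u), D.cps_ok l z u⟩

end Bxs

end Pool.Agent.LC
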