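import Pool.Agent.Lib_MP_2c424f_lc6a.A1
import Pool.Agent.Lib_MP_2c424f_lc6a.A2
import Pool.Agent.Lib_MP_2c424f_lc6a.B1
import Pool.Agent.Lib_MP_2c424f_lc6a.B8
import Pool.Agent.Lib_MP_2c424f_lc6a.B9
import Pool.Agent.Lib_MP_2c424f_lc.PV
import Pool.Agent.Lib_MP_2c424f_lc2.A11

/-!
# LC6a: main theorem of VI.A (Schwarz inequality and switching at the surfaces of the boxes)

`sw_boxes K` (constant `C ≥ 1`, `d₀`); the data form a `Bxs d N h ι` (`big`: `8 h + 8 ≤ 16 h ≤ h d^C ≤ m` for `d ≥ 16`).  `cs_sheets` (`in_adj`; the event depends on the points of the closed boxes only),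
`fac_box`, `cG_TC`, `YY ≤ |I| Ym`.
-/

set_option autoImplicit false

open Finset Filter

namespace Pool.Agent.LC

open Pool.Agent.LO Pool.Agent.LIN Pool.Agent.THR Pool.Agent.COR

/-- `P_G (⋂ E_k)² ≤ exp (|I| Ym / d^K) ∏ P_{dbl D_k} (E_k)` -/
theorem schwarz (K : ℕ) : ∃ C d₀ : ℕ, ∀ d q : ℕ, d₀ ≤ d → Rg d q → ∀ s0 h : ℕ, (d : ℝ) ^ C ≤ 2 ^ s0 →
    (2 : ℝ) ^ s0 * (d : ℝ) ^ C ≤ h → (h : ℝ) ^ 2 ≤ 2 ^ d →
    ∀ (N : ℕ) (ι : Type) [DecidableEq ι] (I : Finset ι) (a m : ι → Fin d → ℕ) (Ym : ℝ),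
      (∀ k ∈ I, ∀ i, Even (a k i)) → (∀ k ∈ I, ∀ i, Even (m k i)) →
      (∀ k ∈ I, ∀ i, 2 * h + 2 ≤ a k i ∧ a k i + m k i + 2 * h + 2 ≤ N) →
      (∀ k ∈ I, ∀ k' ∈ I, k ≠ k' → ∃ i, a k i + m k i + 2 * h + 4 ≤ a k' i ∨ a k' i + m k' i + 2 * h + 4 ≤ a k i) →
      (∀ k ∈ I, ∀ i, (h : ℝ) * (d : ℝ) ^ C ≤ m k i) →
      (∀ k ∈ I, 2 * ∑ i, ∏ i' ∈ univ.erase i, ((m k i' : ℝ) + 1) ≤ Ym) →
      ∀ E : ∀ k, (DV (m k) → Fin q) → Prop,
      cG (bG d N) (fun f : BxV d N → Fin q => ∀ k ∈ I, E k fun u => f (plc (a k) (m k) u)) ^ 2 *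
          ∏ k ∈ I, N2 (DG (m k)) (Dgl (m k)) (fun _ : DV (m k) → Fin q => True) ≤
        cG (bG d N) (fun _ : BxV d N → Fin q => True) ^ 2 * Real.exp (I.card * Ym / (d : ℝ) ^ K) *
          ∏ k ∈ I, N2 (DG (m k)) (Dgl (m k)) (E k) := by
  obtain ⟨C₁, d₁, hsw⟩ := sw_boxes K
  refine ⟨max C₁ 1, max d₁ 16, ?_⟩
  intro d q hd hR s0 h hs hh hh2 N ι _ I a m Ym ea em lohi sep hm hY E
  have hd1 : d₁ ≤ d := (le_max_left _ _).trans hd
  have hd16 : 16 ≤ d := (le_max_right _ _).trans hd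
  have hdr : (16 : ℝ) ≤ d := by exact_mod_cast hd16
  have hd0 : (0 : ℝ) < d := by linarith
  have hC1 : (d : ℝ) ^ C₁ ≤ (d : ℝ) ^ max C₁ 1 := pow_le_pow_right₀ (by linarith) (le_max_left _ _)
  have hC2 : (16 : ℝ) ≤ (d : ℝ) ^ max C₁ 1 := by
    have h1 : (d : ℝ) ^ 1 ≤ (d : ℝ) ^ max C₁ 1 := pow_le_pow_right₀ (by linarith) (le_max_right _ _)
    rw [pow_one] at h1
    linarith
  have h2s : (16 : ℝ) ≤ 2 ^ s0 := hC2.trans hs
  have hh16 : (1 : ℝ) ≤ h := by nlinarith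
  have hh1 : 1 ≤ h := by exact_mod_cast hh16
  have hq : 1 ≤ q := by
    have := hR.2.2
    omega
  have hbig : ∀ k ∈ I, ∀ i, 8 * h + 8 ≤ m k i := by
    intro k hk i
    have h1 := hm k hk i
    have h2 : (h : ℝ) * 16 ≤ h * (d : ℝ) ^ max C₁ 1 := mul_le_mul_of_nonneg_left hC2 (by linarith)
    have h3 : (h : ℝ) * 16 ≤ m k i := h2.trans h1
    have h4 : h * 16 ≤ m k i := by exact_mod_cast h3
    omega
  let D : Bxs d N h ι := ⟨I, a, m, ea, em, fun k hk i => (lohi k hk i).1, fun k hk i => (lohi k hk i).2, sep, hbig⟩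
  have hmul : ∀ x : ℝ, 0 ≤ x → x * (d : ℝ) ^ C₁ ≤ x * (d : ℝ) ^ max C₁ 1 := fun x hx =>
    mul_le_mul_of_nonneg_left hC1 hx
  have hsw1 := hsw d q hd1 hR s0 h (hC1.trans hs) ((hmul _ (by positivity)).trans hh) hh2 N ι D
    (fun k hk i => (hmul _ (by linarith)).trans (hm k hk i))
  have hSI : ∀ x, D.Su x → D.In x := fun x ⟨k, hk, hx⟩ => ⟨k, hk, hx.1⟩
  have hno : ∀ x y, (bG d N).Adj x y → ¬ D.Su x → ¬ D.Su y → (D.In x ↔ D.In y) :=
    fun x y hxy hx hy => in_adj D hxy hx hy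
  have hpl : ∀ k ∈ I, ∀ u : DV (m k), D.In (plc (a k) (m k) u) := by
    intro k hk u
    refine ⟨k, hk, fun i => ?_⟩
    have h1 : ((plc (a k) (m k) u : BxV d N) i).val = a k i + (u i).val := plc_val D hk u i
    have h2 := (u i).isLt
    show a k i ≤ ((plc (a k) (m k) u : BxV d N) i).val ∧ ((plc (a k) (m k) u : BxV d N) i).val ≤ a k i + m k i
    rw [h1]
    omega
  have h1 := cs_sheets (q := q) (bG d N) D.In D.Su hSI hno
    (fun f : BxV d N → Fin q => ∀ k ∈ I, E k fun u => f (plc (a k) (m k) u)) (by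
      intro f f' hff hf k hk
      have h2 : (fun u : DV (m k) => f' (plc (a k) (m k) u)) = fun u => f (plc (a k) (m k) u) := by
        funext u
        exact (hff _ (hpl k hk u)).symm
      rw [h2]
      exact hf k hk)
  have h2 := fac_box D hq E
  have h2' : cG (TX (bG d N) D.In D.Su) (fun F : BxV d N × Bool → Fin q =>
        ∀ k ∈ I, E k fun u => F (plc (a k) (m k) u, false)) *
        ∏ k ∈ I, N2 (DG (m k)) (Dgl (m k)) (fun _ : DV (m k) → Fin q => True) =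
      cG (TX (bG d N) D.In D.Su) (fun _ : BxV d N × Bool → Fin q => True) *
        ∏ k ∈ I, N2 (DG (m k)) (Dgl (m k)) (E k) := h2
  have hYY : D.YY ≤ I.card * Ym := by
    unfold Bxs.YY
    have h3 := Finset.sum_le_card_nsmul I
      (fun k => 2 * ∑ i, ∏ i' ∈ univ.erase i, ((m k i' : ℝ) + 1)) Ym hY
    rw [nsmul_eq_mul] at h3
    exact h3
  have hdK : (0 : ℝ) < (d : ℝ) ^ K := pow_pos hd0 K
  have hexp : Real.exp (D.YY / (d : ℝ) ^ K) ≤ Real.exp (I.card * Ym / (d : ℝ) ^ K) :=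
    Real.exp_le_exp.2 (div_le_div_of_nonneg_right hYY hdK.le)
  have hN1 : 0 ≤ ∏ k ∈ I, N2 (DG (m k)) (Dgl (m k)) (fun _ : DV (m k) → Fin q => True) :=
    prod_nonneg fun k _ => Nat.cast_nonneg _
  have hN2 : 0 ≤ ∏ k ∈ I, N2 (DG (m k)) (Dgl (m k)) (E k) :=
    prod_nonneg fun k _ => Nat.cast_nonneg _
  rw [cG_TC] at hsw1
  calc cG (bG d N) (fun f : BxV d N → Fin q => ∀ k ∈ I, E k fun u => f (plc (a k) (m k) u)) ^ 2 *
          ∏ k ∈ I, N2 (DG (m k)) (Dgl (m k)) (fun _ : DV (m k) → Fin q => True)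
      ≤ cG (TX (bG d N) D.In D.Su) (fun F : BxV d N × Bool → Fin q =>
          ∀ k ∈ I, E k fun u => F (plc (a k) (m k) u, false)) *
          ∏ k ∈ I, N2 (DG (m k)) (Dgl (m k)) (fun _ : DV (m k) → Fin q => True) :=
        mul_le_mul_of_nonneg_right h1 hN1
    _ = cG (TX (bG d N) D.In D.Su) (fun _ : BxV d N × Bool → Fin q => True) *
          ∏ k ∈ I, N2 (DG (m k)) (Dgl (m k)) (E k) := h2'
    _ ≤ (Real.exp (I.card * Ym / (d : ℝ) ^ K) * cG (bG d N) (fun _ : BxV d N → Fin q => True) ^ 2) *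
          ∏ k ∈ I, N2 (DG (m k)) (Dgl (m k)) (E k) :=
        mul_le_mul_of_nonneg_right (hsw1.trans (mul_le_mul_of_nonneg_right hexp (sq_nonneg _))) hN2
    _ = _ := by ring

end Pool.Agent.LC
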